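import Mathlib

/-!
# Weyl-Heisenberg orbits
-/

set_option autoImplicit false

namespace Pool.Agent.N392.Leg

variable {p : ℕ} [NeZero p]

/-- The time-frequency shift of `x : ℤ/p → ℂ` by `q = (a, b)`: the vector with entries
`e(b k) x (k - a)`, where `e(j) = exp (2 π i j / p)`. -/
noncomputable def shift (q : ZMod p × ZMod p) (x : EuclideanSpace ℂ (ZMod p)) :
    EuclideanSpace ℂ (ZMod p) :=
  WithLp.toLp 2 fun k => ZMod.stdAddChar (q.2 * k) * x (k - q.1)

/-- The `p ^ 2` time-frequency shifts of `x` (its orbit under the Weyl-Heisenberg group, up to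
phases) form a maximal equiangular tight frame: they are unit vectors and any two of them have an
inner product of modulus `1 / √(p + 1)`. -/
def IsFiducial (x : EuclideanSpace ℂ (ZMod p)) : Prop :=
  (∀ q : ZMod p × ZMod p, ‖shift q x‖ = 1) ∧
  ∀ q r : ZMod p × ZMod p, q ≠ r →
    ‖inner ℂ (shift q x) (shift r x)‖ = 1 / Real.sqrt ((p : ℝ) + 1)

/-- The entry of `x` at `k` depends only on the quadratic character of `k`. -/
def IsLegendre (x : EuclideanSpace ℂ (ZMod p)) : Prop :=
  ∀ s k : ZMod p, s ≠ 0 → x (s ^ 2 * k) = x k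

end Pool.Agent.N392.Leg
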