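import Mathlib
import Pool.Agent.N392.Leg.Defs

/-!
# The quartic equations of a fiducial vector
-/

set_option autoImplicit false

open Finset ComplexConjugate

namespace Pool.Agent.N392.Leg

variable {p : ℕ} [hp : Fact p.Prime]

/-- overlaps -/
noncomputable def ov (x : ZMod p → ℂ) (a b : ZMod p) : ℂ :=
  ∑ k, conj (x k) * x (k + a) * ZMod.stdAddChar (b * k)

/-- quartic sums -/
noncomputable def G (x : ZMod p → ℂ) (a m : ZMod p) : ℂ :=
  ∑ k, conj (x k) * x (k + a) * x (k + m) * conj (x (k + a + m))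

theorem conj_char (b : ZMod p) :
    conj (ZMod.stdAddChar b : ℂ) = ZMod.stdAddChar (-b) := by
  rw [AddChar.map_neg_eq_conj]

theorem char_conj_mul (b : ZMod p) :
    conj (ZMod.stdAddChar b : ℂ) * ZMod.stdAddChar b = 1 := by
  rw [conj_char, ← AddChar.map_add_eq_mul, neg_add_cancel, AddChar.map_zero_eq_one]

theorem norm_char (b : ZMod p) : ‖(ZMod.stdAddChar b : ℂ)‖ = 1 := by
  exact AddChar.norm_apply _ _

theorem inner_shift (x : EuclideanSpace ℂ (ZMod p)) (q r : ZMod p × ZMod p) :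
    inner ℂ (shift q x) (shift r x) =
      ZMod.stdAddChar ((r.2 - q.2) * q.1) * ov x (q.1 - r.1) (r.2 - q.2) := by
  rw [PiLp.inner_apply]
  unfold ov
  rw [Finset.mul_sum]
  refine Fintype.sum_equiv (Equiv.subRight q.1) _ _ fun k => ?_
  rw [Equiv.subRight_apply]
  unfold shift
  simp only [RCLike.inner_apply]
  rw [map_mul (starRingEnd ℂ), conj_char]
  have h1 : (ZMod.stdAddChar (-(q.2 * k)) : ℂ) * ZMod.stdAddChar (r.2 * k) =
      ZMod.stdAddChar ((r.2 - q.2) * q.1) * ZMod.stdAddChar ((r.2 - q.2) * (k - q.1)) := by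
    rw [← AddChar.map_add_eq_mul, ← AddChar.map_add_eq_mul]
    congr 1
    ring
  have h2 : k - q.1 + (q.1 - r.1) = k - r.1 := by ring
  rw [h2]
  linear_combination (x (k - r.1) * conj (x (k - q.1))) * h1

theorem norm_shift (x : EuclideanSpace ℂ (ZMod p)) (q : ZMod p × ZMod p) :
    ‖shift q x‖ = ‖x‖ := by
  have h1 := inner_shift x q q
  have h2 := inner_shift x 0 0
  have h3 : shift 0 x = x := by
    unfold shift
    ext k
    simp
  rw [h3] at h2
  simp only [sub_self, zero_mul, AddChar.map_zero_eq_one, one_mul, Prod.snd_zero,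
    Prod.fst_zero] at h1 h2
  rw [← h2, inner_self_eq_norm_sq_to_K, inner_self_eq_norm_sq_to_K] at h1
  have h4 : ‖shift q x‖ ^ 2 = ‖x‖ ^ 2 := by exact_mod_cast h1
  exact (pow_left_inj₀ (norm_nonneg _) (norm_nonneg _) two_ne_zero).1 h4

/-- the overlap form of the definition -/
theorem isFiducial_iff (x : EuclideanSpace ℂ (ZMod p)) :
    IsFiducial x ↔ ‖x‖ = 1 ∧ ∀ a b : ZMod p, (a ≠ 0 ∨ b ≠ 0) →
      ‖ov x a b‖ = 1 / Real.sqrt ((p : ℝ) + 1) := by
  constructor
  · rintro ⟨h1, h2⟩
    refine ⟨by rw [← norm_shift x 0]; exact h1 0, fun a b hab => ?_⟩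
    have h3 := h2 (a, 0) (0, b) (by
      intro h
      rw [Prod.mk.injEq] at h
      rcases hab with h4 | h4
      · exact h4 h.1
      · exact h4 h.2.symm)
    rw [inner_shift, norm_mul, norm_char, one_mul] at h3
    simpa using h3
  · rintro ⟨h1, h2⟩
    refine ⟨fun q => by rw [norm_shift]; exact h1, fun q r hqr => ?_⟩
    rw [inner_shift, norm_mul, norm_char, one_mul]
    apply h2
    by_contra h
    push Not at h
    exact hqr (Prod.ext (sub_eq_zero.1 h.1) (sub_eq_zero.1 h.2).symm)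

/-- character sums -/
theorem sum_char (b : ZMod p) :
    ∑ k : ZMod p, (ZMod.stdAddChar (k * b) : ℂ) = if b = 0 then (p : ℂ) else 0 := by
  have h := AddChar.sum_mulShift b (ZMod.isPrimitive_stdAddChar p)
  rw [h, ZMod.card]
  split_ifs <;> simp

theorem ov_mul_conj (x : ZMod p → ℂ) (a b : ZMod p) :
    ov x a b * conj (ov x a b) = ∑ m, G x a m * ZMod.stdAddChar (-(b * m)) := by
  unfold ov G
  rw [map_sum, Finset.sum_mul_sum]
  have h1 : ∀ k : ZMod p, ∑ l, conj (x k) * x (k + a) * ZMod.stdAddChar (b * k) *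
      conj (conj (x l) * x (l + a) * ZMod.stdAddChar (b * l)) =
      ∑ m, conj (x k) * x (k + a) * x (k + m) * conj (x (k + a + m)) *
        ZMod.stdAddChar (-(b * m)) := by
    intro k
    refine Fintype.sum_equiv (Equiv.subRight k) _ _ fun l => ?_
    rw [Equiv.subRight_apply]
    have e1 : k + (l - k) = l := by ring
    have e2 : k + a + (l - k) = l + a := by ring
    rw [e1, e2, map_mul (starRingEnd ℂ), map_mul (starRingEnd ℂ), Complex.conj_conj, conj_char]
    have h2 : (ZMod.stdAddChar (b * k) : ℂ) * ZMod.stdAddChar (-(b * l)) =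
        ZMod.stdAddChar (-(b * (l - k))) := by
      rw [← AddChar.map_add_eq_mul]
      congr 1
      ring
    rw [← h2]
    ring
  rw [Finset.sum_congr rfl fun k _ => h1 k, Finset.sum_comm]
  refine Finset.sum_congr rfl fun m _ => ?_
  rw [Finset.sum_mul]

theorem sum_ov (x : ZMod p → ℂ) (a m : ZMod p) :
    ∑ b, ov x a b * conj (ov x a b) * ZMod.stdAddChar (b * m) = p * G x a m := by
  simp_rw [ov_mul_conj, Finset.sum_mul]
  rw [Finset.sum_comm]
  have h1 : ∀ m' : ZMod p, ∑ b, G x a m' * ZMod.stdAddChar (-(b * m')) *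
      ZMod.stdAddChar (b * m) = if m' = m then p * G x a m else 0 := by
    intro m'
    have h2 : ∀ b : ZMod p, G x a m' * ZMod.stdAddChar (-(b * m')) *
        ZMod.stdAddChar (b * m) = G x a m' * ZMod.stdAddChar (b * (m - m')) := by
      intro b
      rw [mul_assoc, ← AddChar.map_add_eq_mul]
      congr 2
      ring
    simp_rw [h2]
    rw [← Finset.mul_sum, sum_char]
    by_cases h3 : m' = m
    · rw [h3, sub_self, if_pos rfl, if_pos rfl, mul_comm]
    · rw [if_neg h3, if_neg (sub_ne_zero.2 (Ne.symm h3)), mul_zero]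
  rw [Finset.sum_congr rfl fun m' _ => h1 m', Finset.sum_ite_eq', if_pos (Finset.mem_univ _)]

theorem norm_sq_eq (x : EuclideanSpace ℂ (ZMod p)) :
    ((‖x‖ ^ 2 : ℝ) : ℂ) = ov x 0 0 := by
  have h := inner_shift x 0 0
  have h3 : shift 0 x = x := by
    unfold shift
    ext k
    simp
  rw [h3, inner_self_eq_norm_sq_to_K] at h
  simp only [sub_self, zero_mul, AddChar.map_zero_eq_one, one_mul, Prod.snd_zero,
    Prod.fst_zero] at h
  rw [← h]
  push_cast
  rfl

theorem p_ne : (p : ℂ) ≠ 0 := by exact_mod_cast hp.out.ne_zero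

omit hp in
theorem p1_ne : (p : ℂ) + 1 ≠ 0 := by exact_mod_cast p.succ_ne_zero

theorem ov_sq_of {x : ZMod p → ℂ} {a b : ZMod p}
    (h : ‖ov x a b‖ = 1 / Real.sqrt ((p : ℝ) + 1)) :
    ov x a b * conj (ov x a b) = 1 / ((p : ℂ) + 1) := by
  rw [Complex.mul_conj, Complex.normSq_eq_norm_sq, h, div_pow, Real.sq_sqrt (by positivity)]
  push_cast
  ring

/-- the quartic equations -/
theorem IsFiducial.G_eq {x : EuclideanSpace ℂ (ZMod p)} (h : IsFiducial x) (a m : ZMod p) :
    G x a m = ((if a = 0 then 1 else 0) + (if m = 0 then 1 else 0)) / ((p : ℂ) + 1) := by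
  rw [isFiducial_iff] at h
  obtain ⟨h1, h2⟩ := h
  have h3 := sum_ov x a m
  have hb : ∀ b : ZMod p, ov x a b * conj (ov x a b) * ZMod.stdAddChar (b * m) =
      1 / ((p : ℂ) + 1) * ZMod.stdAddChar (b * m) +
      if b = 0 then (if a = 0 then 1 - 1 / ((p : ℂ) + 1) else 0) else 0 := by
    intro b
    by_cases hab : a ≠ 0 ∨ b ≠ 0
    · rw [ov_sq_of (h2 a b hab)]
      split_ifs with h4 h5
      · exfalso
        rcases hab with h6 | h6
        · exact h6 h5
        · exact h6 h4
      · ring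
      · ring
    · push Not at hab
      rw [if_pos hab.2, if_pos hab.1, hab.1, hab.2]
      have h4 : ov x 0 0 = 1 := by
        rw [← norm_sq_eq, h1]
        norm_num
      rw [h4, map_one, zero_mul, AddChar.map_zero_eq_one]
      ring
  rw [Finset.sum_congr rfl fun b _ => hb b, Finset.sum_add_distrib, ← Finset.mul_sum, sum_char,
    Finset.sum_ite_eq', if_pos (Finset.mem_univ _)] at h3
  have hp0 := p_ne (p := p)
  have hp1 := p1_ne (p := p)
  apply mul_left_cancel₀ hp0
  rw [← h3]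
  split_ifs <;> field_simp <;> ring

/-- converse -/
theorem isFiducial_of_G {x : EuclideanSpace ℂ (ZMod p)} (hx : ‖x‖ = 1)
    (h : ∀ a m : ZMod p, G x a m =
      ((if a = 0 then 1 else 0) + (if m = 0 then 1 else 0)) / ((p : ℂ) + 1)) :
    IsFiducial x := by
  rw [isFiducial_iff]
  refine ⟨hx, fun a b hab => ?_⟩
  have h1 := ov_mul_conj x a b
  have h2 : ∀ m : ZMod p, G x a m * ZMod.stdAddChar (-(b * m)) =
      (if a = 0 then 1 else 0) / ((p : ℂ) + 1) * ZMod.stdAddChar (m * (-b)) +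
      if m = 0 then 1 / ((p : ℂ) + 1) else 0 := by
    intro m
    rw [h a m]
    have e : -(b * m) = m * (-b) := by ring
    rw [e]
    by_cases hm : m = 0
    · rw [hm, zero_mul, AddChar.map_zero_eq_one, if_pos rfl, if_pos rfl]
      ring
    · rw [if_neg hm, if_neg hm]
      ring
  rw [Finset.sum_congr rfl fun m _ => h2 m, Finset.sum_add_distrib, ← Finset.mul_sum, sum_char,
    Finset.sum_ite_eq', if_pos (Finset.mem_univ _)] at h1
  have h3 : (if a = 0 then 1 else 0) / ((p : ℂ) + 1) * (if -b = 0 then (p : ℂ) else 0) = 0 := by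
    rcases hab with h4 | h4
    · rw [if_neg h4]; ring
    · rw [if_neg (neg_ne_zero.2 h4)]; ring
  rw [h3, zero_add, Complex.mul_conj, Complex.normSq_eq_norm_sq] at h1
  have h4 : ‖ov x a b‖ ^ 2 = 1 / ((p : ℝ) + 1) := by
    apply Complex.ofReal_injective
    rw [h1]
    push_cast
    rfl
  have h5 : (1 / Real.sqrt ((p : ℝ) + 1)) ^ 2 = 1 / ((p : ℝ) + 1) := by
    rw [div_pow, Real.sq_sqrt (by positivity)]
    ring
  rw [← h5] at h4
  exact (pow_left_inj₀ (norm_nonneg _) (by positivity) two_ne_zero).1 h4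

end Pool.Agent.N392.Leg
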