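import Mathlib
import Pool.Agent.N392.Leg.Corr

/-!
# Even fiducial vectors
-/

set_option autoImplicit false

open Finset ComplexConjugate

namespace Pool.Agent.N392.Leg

variable {p : ℕ} [hp : Fact p.Prime]

theorem two_ne (h2 : p ≠ 2) : (2 : ZMod p) ≠ 0 := by
  intro h
  have h1 : ((2 : ℕ) : ZMod p) = 0 := by exact_mod_cast h
  rw [ZMod.natCast_eq_zero_iff] at h1
  exact h2 ((Nat.prime_dvd_prime_iff_eq hp.out Nat.prime_two).1 h1)

/-- corrected overlaps -/
noncomputable def dov (x : ZMod p → ℂ) (a b : ZMod p) : ℂ :=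
  ZMod.stdAddChar (2⁻¹ * a * b) * ov x a b

theorem conj_dov (h2 : p ≠ 2) {x : ZMod p → ℂ} (hx : ∀ k, x (-k) = x k) (a b : ZMod p) :
    conj (dov x a b) = dov x a b := by
  unfold dov ov
  rw [map_mul (starRingEnd ℂ), map_sum, conj_char, Finset.mul_sum, Finset.mul_sum]
  refine Fintype.sum_equiv (Equiv.subLeft (-a)) _ _ fun k => ?_
  rw [Equiv.subLeft_apply, map_mul (starRingEnd ℂ), map_mul (starRingEnd ℂ), Complex.conj_conj,
    conj_char]
  have e1 : -a - k = -(k + a) := by ring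
  have e2 : -a - k + a = -k := by ring
  rw [e2, e1, hx, hx]
  have h3 : (ZMod.stdAddChar (-(2⁻¹ * a * b)) : ℂ) * ZMod.stdAddChar (-(b * k)) =
      ZMod.stdAddChar (2⁻¹ * a * b) * ZMod.stdAddChar (b * -(k + a)) := by
    rw [← AddChar.map_add_eq_mul, ← AddChar.map_add_eq_mul]
    congr 1
    have h4 := two_ne h2
    field_simp
    ring
  linear_combination (x k * conj (x (k + a))) * h3

theorem norm_dov (x : ZMod p → ℂ) (a b : ZMod p) : ‖dov x a b‖ = ‖ov x a b‖ := by
  unfold dov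
  rw [norm_mul, norm_char, one_mul]

theorem sum_dov (h2 : p ≠ 2) {x : ZMod p → ℂ} (hx : ∀ k, x (-k) = x k) :
    ∑ a, ∑ b, dov x a b = p * ov x 0 0 := by
  have h4 := two_ne h2
  have h1 : ∀ a : ZMod p, ∑ b, dov x a b =
      ∑ k, conj (x k) * x (k + a) * (if k + 2⁻¹ * a = 0 then (p : ℂ) else 0) := by
    intro a
    unfold dov ov
    simp_rw [Finset.mul_sum]
    rw [Finset.sum_comm]
    refine Finset.sum_congr rfl fun k _ => ?_
    rw [← sum_char, Finset.mul_sum]
    refine Finset.sum_congr rfl fun b _ => ?_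
    have h3 : (ZMod.stdAddChar (2⁻¹ * a * b) : ℂ) * ZMod.stdAddChar (b * k) =
        ZMod.stdAddChar (b * (k + 2⁻¹ * a)) := by
      rw [← AddChar.map_add_eq_mul]
      congr 1
      ring
    rw [← h3]
    ring
  simp_rw [h1]
  rw [Finset.sum_comm]
  unfold ov
  rw [Finset.mul_sum]
  refine Finset.sum_congr rfl fun k _ => ?_
  rw [Finset.sum_eq_single (-(2 * k))]
  · have e1 : k + 2⁻¹ * -(2 * k) = 0 := by field_simp; ring
    have e2 : k + -(2 * k) = -k := by ring
    rw [if_pos e1, e2, hx, add_zero, zero_mul, AddChar.map_zero_eq_one]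
    ring
  · intro a _ ha
    rw [if_neg, mul_zero]
    intro h
    apply ha
    have h5 : 2 * (k + 2⁻¹ * a) = 0 := by rw [h, mul_zero]
    have h6 : 2 * (k + 2⁻¹ * a) = 2 * k + a := by field_simp
    rw [h6] at h5
    exact eq_neg_of_add_eq_zero_right h5
  · intro h; exact absurd (Finset.mem_univ _) h

/-- an even fiducial vector exists in odd prime dimension `p` for `p = 3` only -/
theorem even_case (h2 : p ≠ 2) {x : EuclideanSpace ℂ (ZMod p)} (h : IsFiducial x)
    (hx : ∀ k, x (-k) = x k) : p = 3 := by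
  rw [isFiducial_iff] at h
  obtain ⟨h1, h3⟩ := h
  set s : ℝ := Real.sqrt ((p : ℝ) + 1) with hs
  have hs0 : 0 < s := Real.sqrt_pos.2 (by positivity)
  have hs2 : s ^ 2 = p + 1 := Real.sq_sqrt (by positivity)
  have h4 : ∀ a b : ZMod p, (a ≠ 0 ∨ b ≠ 0) → ∃ e : ℤ, dov x a b = (((e : ℝ) / s : ℝ) : ℂ) := by
    intro a b hab
    have h5 := conj_dov h2 hx a b
    rw [Complex.conj_eq_iff_real] at h5
    obtain ⟨r, hr⟩ := h5
    have h6 := h3 a b hab
    rw [← norm_dov, hr, Complex.norm_real, Real.norm_eq_abs] at h6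
    rcases abs_choice r with h7 | h7
    · refine ⟨1, ?_⟩
      rw [hr]
      congr 1
      rw [← h7, h6]
      push_cast
      rfl
    · refine ⟨-1, ?_⟩
      rw [hr]
      congr 1
      have h8 : r = -|r| := by rw [h7, neg_neg]
      rw [h8, h6]
      push_cast
      ring
  have h00 : ov x 0 0 = 1 := by
    rw [← norm_sq_eq, h1]
    norm_num
  have h5 : ∀ a b : ZMod p, ∃ e : ℤ, dov x a b = (((e : ℝ) / s : ℝ) : ℂ) +
      if a = 0 ∧ b = 0 then 1 else 0 := by
    intro a b
    by_cases hab : a = 0 ∧ b = 0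
    · refine ⟨0, ?_⟩
      rw [if_pos hab, hab.1, hab.2]
      unfold dov
      rw [h00]
      simp
    · rw [if_neg hab]
      obtain ⟨e, he⟩ := h4 a b (by
        by_contra h
        push Not at h
        exact hab h)
      exact ⟨e, by rw [he, add_zero]⟩
  choose e he using h5
  have h6 := sum_dov h2 hx
  rw [h00, mul_one] at h6
  have h7 : ∑ a : ZMod p, ∑ b : ZMod p, dov x a b =
      ((((∑ a : ZMod p, ∑ b : ZMod p, e a b : ℤ) : ℝ) / s + 1 : ℝ) : ℂ) := by
    have h8 : ∀ a : ZMod p, ∑ b : ZMod p, dov x a b =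
        ((((∑ b : ZMod p, e a b : ℤ) : ℝ) / s : ℝ) : ℂ) + if a = 0 then 1 else 0 := by
      intro a
      rw [Finset.sum_congr rfl fun b _ => he a b, Finset.sum_add_distrib]
      congr 1
      · push_cast
        rw [Finset.sum_div]
      · by_cases ha : a = 0
        · simp [ha]
        · simp [ha]
    rw [Finset.sum_congr rfl fun a _ => h8 a, Finset.sum_add_distrib]
    simp only [Finset.sum_ite_eq', Finset.mem_univ, if_true]
    push_cast
    rw [Finset.sum_div]
  rw [h7] at h6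
  have h9 : ((∑ a : ZMod p, ∑ b : ZMod p, e a b : ℤ) : ℝ) / s + 1 = p := by exact_mod_cast h6
  set M : ℤ := ∑ a : ZMod p, ∑ b : ZMod p, e a b with hM
  have h10 : (M : ℝ) = (p - 1) * s := by
    field_simp at h9
    linarith
  have h11 : M ^ 2 = ((p : ℤ) - 1) ^ 2 * (p + 1) := by
    have : (M : ℝ) ^ 2 = ((p : ℝ) - 1) ^ 2 * (p + 1) := by rw [h10, mul_pow, hs2]
    exact_mod_cast this
  have h12 : ((p : ℤ) - 1) ∣ M := by
    rw [← Int.pow_dvd_pow_iff two_ne_zero, h11]
    exact dvd_mul_right _ _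
  obtain ⟨n, hn⟩ := h12
  have hp2 : (2 : ℤ) < p := by
    have := hp.out.two_le
    have h : 2 < p := by omega
    exact_mod_cast h
  have h13 : n ^ 2 = (p : ℤ) + 1 := by
    rw [hn, mul_pow] at h11
    have : ((p : ℤ) - 1) ^ 2 ≠ 0 := pow_ne_zero _ (by omega)
    exact mul_left_cancel₀ this h11
  have h14 : ((n.natAbs : ℤ)) ^ 2 = (p : ℤ) + 1 := by rw [Int.natAbs_sq, h13]
  have h15 : n.natAbs ^ 2 = p + 1 := by exact_mod_cast h14
  set m := n.natAbs with hm
  have hm2 : 2 ≤ m := by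
    by_contra h
    have : m ≤ 1 := by omega
    have : m ^ 2 ≤ 1 := by nlinarith
    have := hp.out.two_le
    omega
  have h16 : p = (m - 1) * (m + 1) := by
    obtain ⟨c, hc⟩ : ∃ c, m = c + 2 := ⟨m - 2, by omega⟩
    have h18 : c + 2 - 1 = c + 1 := by omega
    rw [hc] at h15 ⊢
    rw [h18]
    nlinarith
  rcases (Nat.prime_mul_iff.1 (h16 ▸ hp.out)) with h17 | h17
  · omega
  · have : m = 2 := by omega
    rw [this] at h16
    simpa using h16

end Pool.Agent.N392.Leg
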