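import Mathlib

/-!
# Moments of Legendre symbol sums modulo `p`
-/

set_option autoImplicit false

open Finset

namespace Pool.Agent.N392.Leg

variable {p : ℕ} [hp : Fact p.Prime]

/-- quadratic character -/
noncomputable def chi (k : ZMod p) : ℤ := quadraticChar (ZMod p) k

/-- quartic character sum -/
noncomputable def ee (r : ZMod p) : ℤ := ∑ k, chi k * chi (k + 1) * chi (k + r) * chi (k + 1 + r)

/-- boundary terms -/
noncomputable def ss (r : ZMod p) : ℤ :=
  chi (1 + r) * (1 + chi r) + chi (r - 1) * (chi r - 1)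

/-- Euler's criterion -/
theorem chi_cast (h2 : p ≠ 2) (k : ZMod p) : ((chi k : ℤ) : ZMod p) = k ^ (p / 2) := by
  unfold chi
  have h := quadraticChar_eq_pow_of_char_ne_two' (F := ZMod p) (by rwa [ZMod.ringChar_zmod_n]) k
  rw [h, ZMod.card]

/-- power sums -/
theorem sum_pow (e : ℕ) (he : 0 < e) :
    ∑ t : ZMod p, t ^ e = if p - 1 ∣ e then -1 else 0 := by
  have h1 := FiniteField.sum_pow_units (ZMod p) e
  rw [ZMod.card] at h1
  rw [← h1]
  have h2 : ∑ t : ZMod p, t ^ e = ∑ t ∈ univ.filter (fun t : ZMod p => t ≠ 0), t ^ e := by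
    rw [Finset.sum_filter]
    refine Finset.sum_congr rfl fun t _ => ?_
    split_ifs with h
    · rfl
    · push Not at h
      rw [h, zero_pow he.ne']
  rw [h2]
  refine (Finset.sum_bij' (fun (u : (ZMod p)ˣ) _ => (u : ZMod p))
    (fun t ht => Units.mk0 t (by simpa using ht)) ?_ ?_ ?_ ?_ ?_).symm
  · intro u _
    simp
  · intro t _
    simp
  · intro u _
    ext
    simp
  · intro t _
    simp
  · intro u _
    rfl

/-- sums of `t ^ a (t + 1) ^ h` -/
theorem sum_pow_mul (a h : ℕ) (ha : 0 < a) :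
    ∑ t : ZMod p, t ^ a * (t + 1) ^ h =
      ∑ i ∈ range (h + 1), (h.choose i : ZMod p) * (if p - 1 ∣ a + i then -1 else 0) := by
  have h1 : ∀ t : ZMod p, t ^ a * (t + 1) ^ h =
      ∑ i ∈ range (h + 1), (h.choose i : ZMod p) * t ^ (a + i) := by
    intro t
    rw [add_pow, Finset.mul_sum]
    refine Finset.sum_congr rfl fun i _ => ?_
    rw [one_pow, pow_add]
    ring
  simp_rw [h1]
  rw [Finset.sum_comm]
  refine Finset.sum_congr rfl fun i _ => ?_
  rw [← Finset.mul_sum, sum_pow _ (by omega)]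

/-- moments -/
noncomputable def mo (p : ℕ) [Fact p.Prime] (j : ℕ) : ZMod p :=
  ∑ t : ZMod p, t ^ (p / 2) * (t + 1) ^ (p / 2) * t ^ j

theorem mo_eq (h2 : p ≠ 2) (j : ℕ) (hj : j < p / 2) :
    mo p j = -((p / 2).choose j : ZMod p) := by
  have hodd : p % 2 = 1 := (Nat.Prime.eq_two_or_odd hp.out).resolve_left h2
  obtain ⟨h, hh⟩ : ∃ h, h = p / 2 := ⟨_, rfl⟩
  have hph : p - 1 = 2 * h := by omega
  unfold mo
  rw [← hh] at hj ⊢
  have h1 : ∀ t : ZMod p, t ^ h * (t + 1) ^ h * t ^ j = t ^ (h + j) * (t + 1) ^ h := by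
    intro t; rw [pow_add]; ring
  simp_rw [h1]
  rw [sum_pow_mul _ _ (by omega), Finset.sum_eq_single (h - j)]
  · rw [if_pos, Nat.choose_symm hj.le]
    · ring
    · rw [hph]
      have : h + j + (h - j) = 2 * h := by omega
      rw [this]
  · intro i hi hij
    rw [if_neg, mul_zero]
    rw [hph]
    rintro ⟨c, hc⟩
    rw [Finset.mem_range] at hi
    have : c < 2 := by
      by_contra hc2
      have : 2 * h * 2 ≤ 2 * h * c := Nat.mul_le_mul_left _ (by omega)
      omega
    interval_cases c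
    · omega
    · omega
  · intro h0
    exact absurd (Finset.mem_range.2 (by omega)) h0

theorem small_ne {n : ℕ} (hn : 0 < n) (hnp : n < p) : ((n : ℕ) : ZMod p) ≠ 0 := by
  intro h
  rw [ZMod.natCast_eq_zero_iff] at h
  exact absurd (Nat.le_of_dvd hn h) (by omega)

/-- recursion for the binomial coefficients -/
theorem choose_rec (h2 : p ≠ 2) (j : ℕ) (hj : j < p / 2) :
    2 * ((j : ZMod p) + 1) * ((p / 2).choose (j + 1) : ZMod p) =
      -(2 * (j : ZMod p) + 1) * ((p / 2).choose j : ZMod p) := by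
  have hodd : p % 2 = 1 := (Nat.Prime.eq_two_or_odd hp.out).resolve_left h2
  have h1 := Nat.choose_succ_right_eq (p / 2) j
  have h3 : ((p / 2 : ℕ) : ZMod p) * 2 + 1 = 0 := by
    have h4 : ((p / 2 * 2 + 1 : ℕ) : ZMod p) = 0 := by
      have : p / 2 * 2 + 1 = p := by omega
      rw [this, ZMod.natCast_self]
    exact_mod_cast h4
  have h5 : (((p / 2).choose (j + 1) * (j + 1) : ℕ) : ZMod p) =
      (((p / 2).choose j * (p / 2 - j) : ℕ) : ZMod p) := by rw [h1]
  rw [Nat.cast_mul, Nat.cast_mul, Nat.cast_sub hj.le] at h5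
  push_cast at h5
  linear_combination 2 * h5 + ((p / 2).choose j : ZMod p) * h3

/-- the first moments -/
theorem mo_values (h15 : 15 ≤ p) :
    mo p 0 = -1 ∧ mo p 1 = 1 / 2 ∧ mo p 2 = -3 / 2 ^ 3 ∧ mo p 3 = 5 / 2 ^ 4 ∧
      mo p 4 = -35 / 2 ^ 7 ∧ mo p 5 = 63 / 2 ^ 8 ∧ mo p 6 = -231 / 2 ^ 10 := by
  have h2 : p ≠ 2 := by omega
  have n2 : (2 : ZMod p) ≠ 0 := by exact_mod_cast small_ne (p := p) (n := 2) (by norm_num) (by omega)
  have n3 : (3 : ZMod p) ≠ 0 := by exact_mod_cast small_ne (p := p) (n := 3) (by norm_num) (by omega)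
  have n5 : (5 : ZMod p) ≠ 0 := by exact_mod_cast small_ne (p := p) (n := 5) (by norm_num) (by omega)
  have r0 := choose_rec h2 0 (by omega)
  have r1 := choose_rec h2 1 (by omega)
  have r2 := choose_rec h2 2 (by omega)
  have r3 := choose_rec h2 3 (by omega)
  have r4 := choose_rec h2 4 (by omega)
  have r5 := choose_rec h2 5 (by omega)
  norm_num at r0 r1 r2 r3 r4 r5
  rw [mo_eq h2 0 (by omega), mo_eq h2 1 (by omega), mo_eq h2 2 (by omega), mo_eq h2 3 (by omega),
    mo_eq h2 4 (by omega), mo_eq h2 5 (by omega), mo_eq h2 6 (by omega)]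
  rw [Nat.choose_one_right]
  set c1 : ZMod p := ((p / 2 : ℕ) : ZMod p) with hc1
  set c2 : ZMod p := ((p / 2).choose 2 : ZMod p) with hc2
  set c3 : ZMod p := ((p / 2).choose 3 : ZMod p) with hc3
  set c4 : ZMod p := ((p / 2).choose 4 : ZMod p) with hc4
  set c5 : ZMod p := ((p / 2).choose 5 : ZMod p) with hc5
  set c6 : ZMod p := ((p / 2).choose 6 : ZMod p) with hc6
  have e2 : 8 * c2 = 3 := by linear_combination 2 * r1 - 3 * r0
  have e3 : 16 * c3 = -5 := by
    have h : 3 * (16 * c3 + 5) = 0 := by linear_combination 8 * r2 - 5 * e2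
    linear_combination (mul_eq_zero.1 h).resolve_left n3
  have e4 : 128 * c4 = 35 := by linear_combination 16 * r3 - 7 * e3
  have e5 : 256 * c5 = -63 := by
    have h : 5 * (256 * c5 + 63) = 0 := by linear_combination 128 * r4 - 9 * e4
    linear_combination (mul_eq_zero.1 h).resolve_left n5
  have e6 : 1024 * c6 = 231 := by
    have h : 3 * (1024 * c6 - 231) = 0 := by linear_combination 256 * r5 - 11 * e5
    linear_combination (mul_eq_zero.1 h).resolve_left n3
  refine ⟨by simp, ?_, ?_, ?_, ?_, ?_, ?_⟩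
  · rw [eq_div_iff n2]; linear_combination -r0
  · rw [eq_div_iff (pow_ne_zero _ n2)]; linear_combination -e2
  · rw [eq_div_iff (pow_ne_zero _ n2)]; linear_combination -e3
  · rw [eq_div_iff (pow_ne_zero _ n2)]; linear_combination -e4
  · rw [eq_div_iff (pow_ne_zero _ n2)]; linear_combination -e5
  · rw [eq_div_iff (pow_ne_zero _ n2)]; linear_combination -e6

/-- even moments of `ee` -/
theorem sum_ee (h2 : p ≠ 2) (m : ℕ) (hm : Even m) :
    ∑ r : ZMod p, ((ee r : ℤ) : ZMod p) * r ^ m =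
      ∑ i ∈ range (m + 1), (-1) ^ i * (m.choose i : ZMod p) * mo p i * mo p (m - i) := by
  have h1 : ∀ r : ZMod p, ((ee r : ℤ) : ZMod p) * r ^ m =
      ∑ k : ZMod p, k ^ (p / 2) * (k + 1) ^ (p / 2) * ((k + r) ^ (p / 2) *
        (k + r + 1) ^ (p / 2) * r ^ m) := by
    intro r
    unfold ee
    push_cast
    rw [Finset.sum_mul]
    refine Finset.sum_congr rfl fun k _ => ?_
    rw [chi_cast h2, chi_cast h2, chi_cast h2, chi_cast h2]
    have : k + 1 + r = k + r + 1 := by ring
    rw [this]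
    ring
  simp_rw [h1]
  rw [Finset.sum_comm]
  have h3 : ∀ k : ZMod p, ∑ r : ZMod p, k ^ (p / 2) * (k + 1) ^ (p / 2) * ((k + r) ^ (p / 2) *
        (k + r + 1) ^ (p / 2) * r ^ m) =
      ∑ i ∈ range (m + 1), (-1) ^ i * (m.choose i : ZMod p) *
        (k ^ (p / 2) * (k + 1) ^ (p / 2) * k ^ i) * mo p (m - i) := by
    intro k
    have h4 : ∑ r : ZMod p, k ^ (p / 2) * (k + 1) ^ (p / 2) * ((k + r) ^ (p / 2) *
        (k + r + 1) ^ (p / 2) * r ^ m) =
        ∑ t : ZMod p, k ^ (p / 2) * (k + 1) ^ (p / 2) * (t ^ (p / 2) *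
        (t + 1) ^ (p / 2) * (k - t) ^ m) := by
      refine Fintype.sum_equiv (Equiv.addLeft k) _ _ fun r => ?_
      rw [Equiv.coe_addLeft]
      have : k - (k + r) = -r := by ring
      rw [this, hm.neg_pow]
    rw [h4]
    have h5 : ∀ t : ZMod p, k ^ (p / 2) * (k + 1) ^ (p / 2) * (t ^ (p / 2) *
        (t + 1) ^ (p / 2) * (k - t) ^ m) = ∑ i ∈ range (m + 1),
        (-1) ^ i * (m.choose i : ZMod p) *
        (k ^ (p / 2) * (k + 1) ^ (p / 2) * k ^ i) * (t ^ (p / 2) *
        (t + 1) ^ (p / 2) * t ^ (m - i)) := by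
      intro t
      rw [sub_eq_add_neg, add_pow k (-t) m, Finset.mul_sum, Finset.mul_sum]
      refine Finset.sum_congr rfl fun i hi => ?_
      have h6 : (-t) ^ (m - i) = (-1) ^ i * t ^ (m - i) := by
        rw [neg_pow]
        congr 1
        have h7 : i ≤ m := by
          rw [Finset.mem_range] at hi
          omega
        have h8 : (-1 : ZMod p) ^ (m - i) * (-1) ^ i = (-1) ^ i * (-1) ^ i := by
          rw [← pow_add, Nat.sub_add_cancel h7, hm.neg_one_pow, ← pow_add]
          exact (Even.neg_one_pow ⟨i, rfl⟩).symm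
        exact mul_right_cancel₀ (pow_ne_zero _ (neg_ne_zero.2 one_ne_zero)) h8
      rw [h6]
      ring
    simp_rw [h5]
    rw [Finset.sum_comm]
    refine Finset.sum_congr rfl fun i _ => ?_
    rw [← Finset.mul_sum]
    rfl
  simp_rw [h3]
  rw [Finset.sum_comm]
  refine Finset.sum_congr rfl fun i _ => ?_
  rw [← Finset.sum_mul, ← Finset.mul_sum]
  rfl

theorem sum_shift_zero (c : ZMod p) (a h : ℕ) (ha : 0 < a) (hah : a + h < p - 1) :
    ∑ t : ZMod p, (t + c) ^ h * t ^ a = 0 := by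
  have h1 : ∀ t : ZMod p, (t + c) ^ h * t ^ a =
      ∑ i ∈ range (h + 1), (h.choose i : ZMod p) * c ^ (h - i) * t ^ (a + i) := by
    intro t
    rw [add_pow, Finset.sum_mul]
    refine Finset.sum_congr rfl fun i _ => ?_
    rw [pow_add]
    ring
  simp_rw [h1]
  rw [Finset.sum_comm]
  refine Finset.sum_eq_zero fun i hi => ?_
  rw [← Finset.mul_sum, sum_pow _ (by omega), if_neg, mul_zero]
  intro hd
  rw [Finset.mem_range] at hi
  have := Nat.le_of_dvd (by omega) hd
  omega

/-- even moments of `ss` -/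
theorem sum_ss (h2 : p ≠ 2) (m : ℕ) (hm : Even m) (h0 : 0 < m) (hmp : m < p / 2) :
    ∑ r : ZMod p, ((ss r : ℤ) : ZMod p) * r ^ m = 2 * mo p m := by
  have hodd : p % 2 = 1 := (Nat.Prime.eq_two_or_odd hp.out).resolve_left h2
  have h1 : ∀ r : ZMod p, ((ss r : ℤ) : ZMod p) * r ^ m =
      (r + 1) ^ (p / 2) * r ^ m + r ^ (p / 2) * (r + 1) ^ (p / 2) * r ^ m +
      (-r) ^ (p / 2) * (-r + 1) ^ (p / 2) * (-r) ^ m - (r + -1) ^ (p / 2) * r ^ m := by
    intro r
    unfold ss
    push_cast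
    rw [chi_cast h2, chi_cast h2, chi_cast h2]
    have e1 : 1 + r = r + 1 := by ring
    have e2 : r - 1 = r + -1 := by ring
    have e3 : (-r) ^ (p / 2) * (-r + 1) ^ (p / 2) = r ^ (p / 2) * (r + -1) ^ (p / 2) := by
      rw [← mul_pow, ← mul_pow]
      congr 1
      ring
    rw [e1, e2, e3, hm.neg_pow]
    ring
  simp_rw [h1]
  rw [Finset.sum_sub_distrib, Finset.sum_add_distrib, Finset.sum_add_distrib,
    sum_shift_zero _ _ _ h0 (by omega), sum_shift_zero _ _ _ h0 (by omega)]
  have h3 : ∑ r : ZMod p, (-r) ^ (p / 2) * (-r + 1) ^ (p / 2) * (-r) ^ m = mo p m :=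
    Fintype.sum_equiv (Equiv.neg (ZMod p)) _ _ fun r => by rw [Equiv.neg_apply]
  rw [h3]
  unfold mo
  ring

/-- the key congruence -/
theorem dvd_of_relation (h15 : 15 ≤ p) (A B : ZMod p)
    (h : ∀ r : ZMod p, r ≠ 0 → r ≠ 1 → r ≠ -1 → ((ee r : ℤ) : ZMod p) = A + B * ((ss r : ℤ) : ZMod p)) :
    p ∣ 114 := by
  have h2 : p ≠ 2 := by omega
  have n2 : (2 : ZMod p) ≠ 0 := by exact_mod_cast small_ne (p := p) (n := 2) (by norm_num) (by omega)
  set T : ZMod p := (((ee (1 : ZMod p) : ℤ) : ZMod p) - A - B * ((ss (1 : ZMod p) : ℤ) : ZMod p)) +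
    (((ee (-1 : ZMod p) : ℤ) : ZMod p) - A - B * ((ss (-1 : ZMod p) : ℤ) : ZMod p)) with hT
  have key : ∀ m : ℕ, Even m → 0 < m → m < p / 2 →
      ∑ i ∈ range (m + 1), (-1) ^ i * (m.choose i : ZMod p) * mo p i * mo p (m - i) -
      2 * B * mo p m = T := by
    intro m hm h0 hmp
    have h3 : ∑ r : ZMod p, (((ee r : ℤ) : ZMod p) - A - B * ((ss r : ℤ) : ZMod p)) * r ^ m =
        T := by
      have hne : (1 : ZMod p) ≠ -1 := by
        intro h4
        apply n2
        linear_combination h4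
      rw [← Finset.sum_subset (Finset.subset_univ ({1, -1} : Finset (ZMod p)))]
      · rw [Finset.sum_pair hne, one_pow, hm.neg_one_pow, hT]
        ring
      · intro r _ hr
        simp only [Finset.mem_insert, Finset.mem_singleton, not_or] at hr
        by_cases hr0 : r = 0
        · rw [hr0, zero_pow h0.ne', mul_zero]
        · rw [h r hr0 hr.1 hr.2]
          ring
    rw [← sum_ee h2 m hm, ← h3]
    have h4 : 2 * B * mo p m = ∑ r : ZMod p, B * ((ss r : ℤ) : ZMod p) * r ^ m := by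
      have h5 := sum_ss h2 m hm h0 hmp
      have h6 : 2 * B * mo p m = B * (2 * mo p m) := by ring
      rw [h6, ← h5, Finset.mul_sum]
      refine Finset.sum_congr rfl fun r _ => ?_
      ring
    have h5 : ∑ r : ZMod p, A * r ^ m = 0 := by
      rw [← Finset.mul_sum, sum_pow _ h0, if_neg, mul_zero]
      intro hd
      have := Nat.le_of_dvd h0 hd
      omega
    rw [h4, ← sub_zero (_ - _), ← h5, ← Finset.sum_sub_distrib, ← Finset.sum_sub_distrib]
    refine Finset.sum_congr rfl fun r _ => ?_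
    ring
  obtain ⟨v0, v1, v2, v3, v4, v5, v6⟩ := mo_values h15
  have k2 := key 2 (by decide) (by omega) (by omega)
  have k4 := key 4 (by decide) (by omega) (by omega)
  have k6 := key 6 (by decide) (by omega) (by omega)
  have c21 : Nat.choose 2 1 = 2 := by decide
  have c41 : Nat.choose 4 1 = 4 := by decide
  have c42 : Nat.choose 4 2 = 6 := by decide
  have c43 : Nat.choose 4 3 = 4 := by decide
  have c61 : Nat.choose 6 1 = 6 := by decide
  have c62 : Nat.choose 6 2 = 15 := by decide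
  have c63 : Nat.choose 6 3 = 20 := by decide
  have c64 : Nat.choose 6 4 = 15 := by decide
  have c65 : Nat.choose 6 5 = 6 := by decide
  simp only [Finset.sum_range_succ, Finset.sum_range_zero, c21, c41, c42, c43, c61, c62, c63, c64,
    c65, Nat.choose_zero_right, Nat.choose_self, Nat.sub_zero, Nat.sub_self,
    show 2 - 1 = 1 from rfl, show 4 - 1 = 3 from rfl, show 4 - 2 = 2 from rfl,
    show 6 - 1 = 5 from rfl, show 6 - 2 = 4 from rfl,
    v0, v1, v2, v3, v4, v5, v6] at k2 k4 k6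
  have e1 : 13 * (2 * B) = -14 := by
    have h3 := k2.trans k4.symm
    push_cast at h3
    field_simp at h3
    linear_combination h3
  have e2 : 49 * (2 * B) = -44 := by
    have h3 := k4.trans k6.symm
    push_cast at h3
    field_simp at h3
    linear_combination h3
  have e3 : ((114 : ℕ) : ZMod p) = 0 := by
    push_cast
    linear_combination 49 * e1 - 13 * e2
  exact (ZMod.natCast_eq_zero_iff _ _).1 e3

end Pool.Agent.N392.Leg
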