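import Mathlib
import Pool.Agent.N392.Leg.Moment
import Pool.Agent.N392.Leg.Corr

/-!
# The quartic equations for Legendre type vectors
-/

set_option autoImplicit false

open Finset ComplexConjugate

namespace Pool.Agent.N392.Leg

variable {p : ℕ} [hp : Fact p.Prime]

theorem chi_mul (a b : ZMod p) : chi (a * b) = chi a * chi b := by
  unfold chi; rw [map_mul]

theorem chi_zero : chi (0 : ZMod p) = 0 := by
  unfold chi; rw [MulChar.map_zero]

theorem chi_one : chi (1 : ZMod p) = 1 := by
  unfold chi; rw [MulChar.map_one]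

theorem chi_sq {a : ZMod p} (ha : a ≠ 0) : chi a * chi a = 1 := by
  unfold chi
  have := quadraticChar_sq_one ha
  rw [← this]; ring

theorem chi_neg_one (h4 : p % 4 = 3) : chi (-1 : ZMod p) = -1 := by
  unfold chi
  rw [quadraticChar_neg_one_iff_not_isSquare]
  rw [FiniteField.isSquare_neg_one_iff, ZMod.card]
  push Not
  exact h4

theorem chi_neg (h4 : p % 4 = 3) (a : ZMod p) : chi (-a) = -chi a := by
  rw [← neg_one_mul, chi_mul, chi_neg_one h4, neg_one_mul]

theorem sum_chi (h2 : p ≠ 2) : ∑ k : ZMod p, chi k = 0 := by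
  unfold chi
  exact quadraticChar_sum_zero (by rwa [ZMod.ringChar_zmod_n])

theorem sum_chi_add (h2 : p ≠ 2) (a : ZMod p) : ∑ k : ZMod p, chi (k + a) = 0 := by
  rw [← sum_chi (p := p) h2]
  exact Fintype.sum_equiv (Equiv.addRight a) _ _ fun k => by rw [Equiv.coe_addRight]

theorem sum_chi_mul (h2 : p ≠ 2) {a : ZMod p} (ha : a ≠ 0) :
    ∑ k : ZMod p, chi k * chi (k + a) = -1 := by
  have h1 : ∀ k : ZMod p, chi k * chi (k + a) = chi (a * k⁻¹ + 1) - if k = 0 then 1 else 0 := by
    intro k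
    by_cases hk : k = 0
    · rw [if_pos hk, hk]
      simp [chi_zero, chi_one]
    · rw [if_neg hk, sub_zero]
      have h3 : k + a = k * (a * k⁻¹ + 1) := by
        field_simp
        ring
      rw [h3, chi_mul, ← mul_assoc, chi_sq hk, one_mul]
  simp_rw [h1]
  rw [Finset.sum_sub_distrib, Finset.sum_ite_eq', if_pos (Finset.mem_univ _)]
  have h3 : ∑ k : ZMod p, chi (a * k⁻¹ + 1) = ∑ k : ZMod p, chi (k + 1) := by
    have h4 : Function.Bijective fun k : ZMod p => a * k⁻¹ :=
      (Equiv.mulLeft₀ a ha).bijective.comp (inv_involutive (G := ZMod p)).bijective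
    exact Fintype.sum_bijective _ h4 _ _ fun k => rfl
  rw [h3, sum_chi_add h2]
  norm_num

theorem sum_chi_pair (h2 : p ≠ 2) {a b : ZMod p} (hab : a ≠ b) :
    ∑ k : ZMod p, chi (k + a) * chi (k + b) = -1 := by
  rw [← sum_chi_mul h2 (sub_ne_zero.2 (Ne.symm hab))]
  refine Fintype.sum_equiv (Equiv.addRight a) _ _ fun k => ?_
  rw [Equiv.coe_addRight]
  have : k + a + (b - a) = k + b := by ring
  rw [this]

/-- cancelling cubic sums -/
theorem sum_cubic (h4 : p % 4 = 3) (r : ZMod p) :
    ∑ k : ZMod p, chi k * chi (k + 1) * chi (k + r) +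
      ∑ k : ZMod p, chi (k + 1) * chi (k + r) * chi (k + 1 + r) = 0 := by
  have h1 : ∑ k : ZMod p, chi (k + 1) * chi (k + r) * chi (k + 1 + r) =
      ∑ k : ZMod p, -(chi k * chi (k + 1) * chi (k + r)) := by
    refine Fintype.sum_equiv (Equiv.subLeft (-1 - r)) _ _ fun k => ?_
    rw [Equiv.subLeft_apply]
    have e1 : -1 - r - k = -(k + 1 + r) := by ring
    have e2 : -1 - r - k + 1 = -(k + r) := by ring
    have e3 : -1 - r - k + r = -(k + 1) := by ring
    rw [e2, e3, e1, chi_neg h4, chi_neg h4, chi_neg h4]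
    ring
  rw [h1, Finset.sum_neg_distrib]
  ring

theorem sum_cubic' (h4 : p % 4 = 3) (r : ZMod p) :
    ∑ k : ZMod p, chi k * chi (k + 1) * chi (k + 1 + r) +
      ∑ k : ZMod p, chi k * chi (k + r) * chi (k + 1 + r) = 0 := by
  have h1 : ∑ k : ZMod p, chi k * chi (k + r) * chi (k + 1 + r) =
      ∑ k : ZMod p, -(chi k * chi (k + 1) * chi (k + 1 + r)) := by
    refine Fintype.sum_equiv (Equiv.subLeft (-1 - r)) _ _ fun k => ?_
    rw [Equiv.subLeft_apply]
    have e1 : -1 - r - k = -(k + 1 + r) := by ring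
    have e2 : -1 - r - k + 1 = -(k + r) := by ring
    have e3 : -(k + r) + r = -k := by ring
    rw [e2, e3, e1, chi_neg h4, chi_neg h4, chi_neg h4]
    ring
  rw [h1, Finset.sum_neg_distrib]
  ring

/-- the vector `u + v χ + z δ` -/
noncomputable def lv (u v z : ℂ) (k : ZMod p) : ℂ :=
  u + v * (chi k : ℂ) + if k = 0 then z else 0

/-- the main part of the quartic sum -/
theorem main_sum (h4 : p % 4 = 3) (u v u' v' : ℂ) {r : ZMod p} (h0 : r ≠ 0) (h1 : r ≠ 1)
    (hm : r ≠ -1) :
    ∑ k : ZMod p, (u' + v' * (chi k : ℂ)) * (u + v * (chi (k + 1) : ℂ)) *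
      (u + v * (chi (k + r) : ℂ)) * (u' + v' * (chi (k + 1 + r) : ℂ)) =
      p * (u * u') ^ 2 - (4 * (u * u') * (v * v') + u ^ 2 * v' ^ 2 + u' ^ 2 * v ^ 2) +
        (v * v') ^ 2 * (ee r : ℂ) := by
  have h2 : p ≠ 2 := by omega
  have hs : ∀ a : ZMod p, ∑ k : ZMod p, (chi (k + a) : ℂ) = 0 := by
    intro a; exact_mod_cast sum_chi_add h2 a
  have hs0 : ∑ k : ZMod p, (chi k : ℂ) = 0 := by exact_mod_cast sum_chi (p := p) h2
  have hs3 : ∑ k : ZMod p, (chi (k + 1 + r) : ℂ) = 0 := by
    have := hs (1 + r)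
    simpa only [add_assoc] using this
  have hq : ∀ a b : ZMod p, a ≠ b → ∑ k : ZMod p, (chi (k + a) : ℂ) * (chi (k + b) : ℂ) = -1 := by
    intro a b hab; exact_mod_cast sum_chi_pair h2 hab
  have q01 : ∑ k : ZMod p, (chi k : ℂ) * (chi (k + 1) : ℂ) = -1 := by
    have := hq 0 1 (by exact zero_ne_one)
    simpa only [add_zero] using this
  have q02 : ∑ k : ZMod p, (chi k : ℂ) * (chi (k + r) : ℂ) = -1 := by
    have := hq 0 r (Ne.symm h0)
    simpa only [add_zero] using this
  have q03 : ∑ k : ZMod p, (chi k : ℂ) * (chi (k + 1 + r) : ℂ) = -1 := by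
    have := hq 0 (1 + r) (by
      intro h
      apply hm
      linear_combination -h)
    simpa only [add_zero, add_assoc] using this
  have q12 : ∑ k : ZMod p, (chi (k + 1) : ℂ) * (chi (k + r) : ℂ) = -1 := hq 1 r (Ne.symm h1)
  have q13 : ∑ k : ZMod p, (chi (k + 1) : ℂ) * (chi (k + 1 + r) : ℂ) = -1 := by
    have := hq 1 (1 + r) (by
      intro h
      apply h0
      linear_combination -h)
    simpa only [add_assoc] using this
  have q23 : ∑ k : ZMod p, (chi (k + r) : ℂ) * (chi (k + 1 + r) : ℂ) = -1 := by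
    have := hq r (1 + r) (by
      intro h
      have : (1 : ZMod p) = 0 := by linear_combination -h
      exact one_ne_zero this)
    simpa only [add_assoc] using this
  have c1 : ∑ k : ZMod p, (chi k : ℂ) * (chi (k + 1) : ℂ) * (chi (k + r) : ℂ) +
      ∑ k : ZMod p, (chi (k + 1) : ℂ) * (chi (k + r) : ℂ) * (chi (k + 1 + r) : ℂ) = 0 := by
    exact_mod_cast sum_cubic h4 r
  have c2 : ∑ k : ZMod p, (chi k : ℂ) * (chi (k + 1) : ℂ) * (chi (k + 1 + r) : ℂ) +
      ∑ k : ZMod p, (chi k : ℂ) * (chi (k + r) : ℂ) * (chi (k + 1 + r) : ℂ) = 0 := by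
    exact_mod_cast sum_cubic' h4 r
  have he : (ee r : ℂ) = ∑ k : ZMod p, (chi k : ℂ) * (chi (k + 1) : ℂ) * (chi (k + r) : ℂ) *
      (chi (k + 1 + r) : ℂ) := by
    unfold ee
    push_cast
    rfl
  have hexp : ∀ k : ZMod p, (u' + v' * (chi k : ℂ)) * (u + v * (chi (k + 1) : ℂ)) *
      (u + v * (chi (k + r) : ℂ)) * (u' + v' * (chi (k + 1 + r) : ℂ)) =
      (u * u') ^ 2 + u ^ 2 * u' * v' * (chi k : ℂ) + u * u' ^ 2 * v * (chi (k + 1) : ℂ) +
      u * u' ^ 2 * v * (chi (k + r) : ℂ) + u ^ 2 * u' * v' * (chi (k + 1 + r) : ℂ) +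
      u * u' * v * v' * ((chi k : ℂ) * (chi (k + 1) : ℂ)) +
      u * u' * v * v' * ((chi k : ℂ) * (chi (k + r) : ℂ)) +
      u ^ 2 * v' ^ 2 * ((chi k : ℂ) * (chi (k + 1 + r) : ℂ)) +
      u' ^ 2 * v ^ 2 * ((chi (k + 1) : ℂ) * (chi (k + r) : ℂ)) +
      u * u' * v * v' * ((chi (k + 1) : ℂ) * (chi (k + 1 + r) : ℂ)) +
      u * u' * v * v' * ((chi (k + r) : ℂ) * (chi (k + 1 + r) : ℂ)) +
      u' * v ^ 2 * v' * ((chi k : ℂ) * (chi (k + 1) : ℂ) * (chi (k + r) : ℂ)) +
      u' * v ^ 2 * v' * ((chi (k + 1) : ℂ) * (chi (k + r) : ℂ) * (chi (k + 1 + r) : ℂ)) +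
      u * v * v' ^ 2 * ((chi k : ℂ) * (chi (k + 1) : ℂ) * (chi (k + 1 + r) : ℂ)) +
      u * v * v' ^ 2 * ((chi k : ℂ) * (chi (k + r) : ℂ) * (chi (k + 1 + r) : ℂ)) +
      (v * v') ^ 2 * ((chi k : ℂ) * (chi (k + 1) : ℂ) * (chi (k + r) : ℂ) *
      (chi (k + 1 + r) : ℂ)) := by
    intro k
    ring
  simp_rw [hexp, Finset.sum_add_distrib, ← Finset.mul_sum]
  rw [hs0, hs, hs, hs3, q01, q02, q03, q12, q13, q23, ← he, Finset.sum_const, Finset.card_univ,
    ZMod.card, nsmul_eq_mul]
  linear_combination (u' * v ^ 2 * v') * c1 + (u * v * v' ^ 2) * c2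

/-- the quartic sums of a Legendre type vector -/
theorem G_lv (h4 : p % 4 = 3) (u v z : ℂ) {r : ZMod p} (h0 : r ≠ 0) (h1 : r ≠ 1)
    (hm : r ≠ -1) :
    G (lv u v z) 1 r = p * (u * conj u) ^ 2 -
      (4 * (u * conj u) * (v * conj v) + u ^ 2 * conj v ^ 2 + conj u ^ 2 * v ^ 2) +
      (v * conj v) ^ 2 * (ee r : ℂ) +
      2 * ((u * conj u) * (conj z * u + z * conj u) +
        (conj z * conj u * v ^ 2 - z * u * conj v ^ 2) * (chi r : ℂ) +
        (v * conj v) * (conj z * u * ((chi (1 + r) : ℂ) * (1 + (chi r : ℂ))) +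
          z * conj u * ((chi (r - 1) : ℂ) * ((chi r : ℂ) - 1)))) := by
  have h2 : p ≠ 2 := by omega
  have hm' : (1 : ZMod p) + r ≠ 0 := by
    intro h
    apply hm
    linear_combination h
  have h1' : r - 1 ≠ 0 := sub_ne_zero.2 h1
  have hterm : ∀ k : ZMod p, conj (lv u v z k) * lv u v z (k + 1) * lv u v z (k + r) *
      conj (lv u v z (k + 1 + r)) =
      (conj u + conj v * (chi k : ℂ)) * (u + v * (chi (k + 1) : ℂ)) *
      (u + v * (chi (k + r) : ℂ)) * (conj u + conj v * (chi (k + 1 + r) : ℂ)) +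
      ((if k = 0 then conj z * (u + v) * (u + v * (chi r : ℂ)) *
        (conj u + conj v * (chi (1 + r) : ℂ)) else 0) +
      (if k = -1 then z * (conj u - conj v) * (u + v * (chi (r - 1) : ℂ)) *
        (conj u + conj v * (chi r : ℂ)) else 0) +
      (if k = -r then z * (conj u - conj v * (chi r : ℂ)) * (u - v * (chi (r - 1) : ℂ)) *
        (conj u + conj v) else 0) +
      (if k = -1 - r then conj z * (conj u - conj v * (chi (1 + r) : ℂ)) *
        (u - v * (chi r : ℂ)) * (u - v) else 0)) := by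
    intro k
    have hcl : ∀ j : ZMod p, conj (lv u v z j) = conj u + conj v * (chi j : ℂ) +
        if j = 0 then conj z else 0 := by
      intro j
      unfold lv
      rw [map_add, map_add, map_mul (starRingEnd ℂ), apply_ite (starRingEnd ℂ), map_zero]
      congr 2
      simp
    rw [hcl, hcl]
    unfold lv
    by_cases k0 : k = 0
    · subst k0
      have a1 : (0 : ZMod p) ≠ -1 := by
        intro h
        have : (1 : ZMod p) = 0 := by linear_combination h
        exact one_ne_zero this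
      have a2 : (0 : ZMod p) ≠ -r := by
        intro h
        apply h0
        linear_combination h
      have a3 : (0 : ZMod p) ≠ -1 - r := by
        intro h
        apply hm'
        linear_combination h
      simp only [zero_add, if_true, if_neg a1, if_neg a2, if_neg a3, if_neg h0, if_neg hm',
        if_neg (one_ne_zero (α := ZMod p)), chi_zero, chi_one]
      push_cast
      ring
    by_cases k1 : k = -1
    · subst k1
      have a2 : (-1 : ZMod p) ≠ -r := by
        intro h
        apply h1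
        linear_combination h
      have a3 : (-1 : ZMod p) ≠ -1 - r := by
        intro h
        apply h0
        linear_combination h
      have e1 : (-1 : ZMod p) + 1 = 0 := by ring
      have e2 : (-1 : ZMod p) + r = r - 1 := by ring
      have e3 : (-1 : ZMod p) + 1 + r = r := by ring
      simp only [e3, e2, e1, zero_add, if_true, if_neg k0, if_neg a2, if_neg a3, if_neg h0,
        if_neg h1', chi_zero, chi_neg_one h4]
      push_cast
      ring
    by_cases k2 : k = -r
    · subst k2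
      have a3 : (-r : ZMod p) ≠ -1 - r := by
        intro h
        have : (1 : ZMod p) = 0 := by linear_combination h
        exact one_ne_zero this
      have e1 : -r + 1 = -(r - 1) := by ring
      have e2 : -r + r = 0 := by ring
      have e3 : -(r - 1) + r = 1 := by ring
      have e4 : -(r - 1) ≠ 0 := neg_ne_zero.2 h1'
      simp only [e1, e3, e2, if_true, if_neg k0, if_neg k1, if_neg a3, if_neg e4,
        if_neg (one_ne_zero (α := ZMod p)), chi_zero, chi_one, chi_neg h4]
      push_cast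
      ring
    by_cases k3 : k = -1 - r
    · subst k3
      have e1 : -1 - r + 1 = -r := by ring
      have e2 : -1 - r + r = -1 := by ring
      have e3 : -r + r = 0 := by ring
      have e4 : chi (-1 - r) = -chi (1 + r) := by
        rw [← chi_neg h4]
        congr 1
        ring
      have e5 : -r ≠ 0 := neg_ne_zero.2 h0
      have e6 : (-1 : ZMod p) ≠ 0 := neg_ne_zero.2 one_ne_zero
      simp only [e1, e2, e3, e4, if_true, if_neg k0, if_neg k1, if_neg k2, if_neg e5, if_neg e6,
        chi_zero, chi_neg_one h4, chi_neg h4]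
      push_cast
      ring
    have b1 : k + 1 ≠ 0 := by
      intro h
      apply k1
      linear_combination h
    have b2 : k + r ≠ 0 := by
      intro h
      apply k2
      linear_combination h
    have b3 : k + 1 + r ≠ 0 := by
      intro h
      apply k3
      linear_combination h
    rw [if_neg k0, if_neg k0, if_neg k1, if_neg k2, if_neg k3, if_neg b1, if_neg b2, if_neg b3]
    ring
  unfold G
  rw [Finset.sum_congr rfl fun k _ => hterm k, Finset.sum_add_distrib,
    main_sum h4 u v (conj u) (conj v) h0 h1 hm]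
  simp only [Finset.sum_add_distrib, Finset.sum_ite_eq', Finset.mem_univ, if_true]
  ring

end Pool.Agent.N392.Leg
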