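import Mathlib
import Pool.Agent.N392.Leg.Quad
import Pool.Agent.N392.Leg.Parity

/-!
# Legendre type fiducial vectors: necessary conditions
-/

set_option autoImplicit false

open Finset ComplexConjugate

namespace Pool.Agent.N392.Leg

variable {p : ℕ} [hp : Fact p.Prime]

theorem chi_cases {k : ZMod p} (hk : k ≠ 0) : chi k = 1 ∨ chi k = -1 := by
  unfold chi
  exact quadraticChar_dichotomy hk

/-- a Legendre type vector has at most three entries -/
theorem exists_lv (h4 : p % 4 = 3) {x : EuclideanSpace ℂ (ZMod p)} (hx : IsLegendre x) :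
    ∃ u v z : ℂ, ∀ k, x k = lv u v z k := by
  refine ⟨(x 1 + x (-1)) / 2, (x 1 - x (-1)) / 2, x 0 - (x 1 + x (-1)) / 2, fun k => ?_⟩
  unfold lv
  by_cases hk : k = 0
  · rw [if_pos hk, hk, chi_zero]
    push_cast
    ring
  · rw [if_neg hk]
    rcases chi_cases hk with h | h
    · have h1 : IsSquare k := by
        unfold chi at h
        exact (quadraticChar_one_iff_isSquare hk).1 h
      obtain ⟨s, hs⟩ := h1
      have hs0 : s ≠ 0 := by
        rintro rfl
        exact hk (by rw [hs, mul_zero])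
      have h3 := hx s 1 hs0
      rw [mul_one, sq, ← hs] at h3
      rw [h, h3]
      push_cast
      ring
    · have h1 : IsSquare (-k) := by
        have h5 := chi_neg h4 k
        rw [h, neg_neg] at h5
        unfold chi at h5
        exact (quadraticChar_one_iff_isSquare (neg_ne_zero.2 hk)).1 h5
      obtain ⟨s, hs⟩ := h1
      have hs0 : s ≠ 0 := by
        rintro rfl
        apply hk
        rw [mul_zero] at hs
        exact neg_eq_zero.1 hs
      have h3 := hx s (-1) hs0
      have h5 : s ^ 2 * (-1) = k := by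
        rw [sq, ← hs]; ring
      rw [h5] at h3
      rw [h, h3]
      push_cast
      ring

/-- the equations of a Legendre type vector, in real form -/
theorem real_eqs (h4 : p % 4 = 3) {u v z : ℂ}
    (hG : ∀ r : ZMod p, r ≠ 0 → G (lv u v z) 1 r = 0) {r : ZMod p} (h0 : r ≠ 0) (h1 : r ≠ 1)
    (hm : r ≠ -1) :
    (Complex.normSq v ^ 2 * (ee r : ℝ) + (p * Complex.normSq u ^ 2 -
        4 * Complex.normSq u * Complex.normSq v - 2 * (conj u ^ 2 * v ^ 2).re +
        4 * Complex.normSq u * (z * conj u).re) +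
      2 * Complex.normSq v * (z * conj u).re * (ss r : ℝ) = 0) ∧
    2 * (conj z * conj u * v ^ 2).im * (chi r : ℝ) = Complex.normSq v * (z * conj u).im *
      ((chi (1 + r) : ℝ) * (1 + (chi r : ℝ)) - (chi (r - 1) : ℝ) * ((chi r : ℝ) - 1)) := by
  have h := hG r h0
  rw [G_lv h4 u v z h0 h1 hm, Complex.mul_conj, Complex.mul_conj] at h
  have e1 : conj z * u = conj (z * conj u) := by
    rw [map_mul (starRingEnd ℂ), Complex.conj_conj]
  have e2 : u ^ 2 * conj v ^ 2 = conj (conj u ^ 2 * v ^ 2) := by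
    rw [map_mul (starRingEnd ℂ), map_pow, map_pow, Complex.conj_conj]
  have e3 : z * u * conj v ^ 2 = conj (conj z * conj u * v ^ 2) := by
    rw [map_mul (starRingEnd ℂ), map_mul (starRingEnd ℂ), map_pow, Complex.conj_conj,
      Complex.conj_conj]
  rw [e1, e2, e3] at h
  set c := z * conj u with hc
  set q := conj u ^ 2 * v ^ 2 with hq
  set d := conj z * conj u * v ^ 2 with hd
  set n := Complex.normSq u with hn
  set w := Complex.normSq v with hw
  have hss : (ss r : ℝ) = (chi (1 + r) : ℝ) * (1 + (chi r : ℝ)) +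
      (chi (r - 1) : ℝ) * ((chi r : ℝ) - 1) := by
    unfold ss
    push_cast
    ring
  have key : ((p : ℂ) * (n : ℂ) ^ 2 - (4 * (n : ℂ) * (w : ℂ) + conj q + q) +
      (w : ℂ) ^ 2 * (ee r : ℂ) +
      2 * ((n : ℂ) * (conj c + c) + (d - conj d) * (chi r : ℂ) +
        (w : ℂ) * (conj c * ((chi (1 + r) : ℂ) * (1 + (chi r : ℂ))) +
          c * ((chi (r - 1) : ℂ) * ((chi r : ℂ) - 1))))) =
      (((p : ℝ) * n ^ 2 - (4 * n * w + 2 * q.re) + w ^ 2 * (ee r : ℝ) +
        2 * (n * (2 * c.re) + w * c.re * ((chi (1 + r) : ℝ) * (1 + (chi r : ℝ)) +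
      (chi (r - 1) : ℝ) * ((chi r : ℝ) - 1))) : ℝ) : ℂ) +
      ((2 * (2 * d.im * (chi r : ℝ) + w * c.im * (-((chi (1 + r) : ℝ) * (1 + (chi r : ℝ))) +
      (chi (r - 1) : ℝ) * ((chi r : ℝ) - 1))) : ℝ) : ℂ) * Complex.I := by
    have hcc : conj c = (c.re : ℂ) - (c.im : ℂ) * Complex.I := by
      apply Complex.ext <;> simp
    have hc0 : c = (c.re : ℂ) + (c.im : ℂ) * Complex.I := (Complex.re_add_im c).symm
    have hqq : conj q = (q.re : ℂ) - (q.im : ℂ) * Complex.I := by
      apply Complex.ext <;> simp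
    have hq0 : q = (q.re : ℂ) + (q.im : ℂ) * Complex.I := (Complex.re_add_im q).symm
    have hdd : conj d = (d.re : ℂ) - (d.im : ℂ) * Complex.I := by
      apply Complex.ext <;> simp
    have hd0 : d = (d.re : ℂ) + (d.im : ℂ) * Complex.I := (Complex.re_add_im d).symm
    rw [hcc, hqq, hdd]
    generalize hcr : c.re = cr at *
    generalize hci : c.im = ci at *
    generalize hqr : q.re = qr at *
    generalize hqi : q.im = qi at *
    generalize hdr : d.re = dr at *
    generalize hdi : d.im = di at *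
    rw [hc0, hq0, hd0]
    push_cast
    ring
  rw [key] at h
  have h5 := congrArg Complex.re h
  have h6 := congrArg Complex.im h
  simp only [Complex.add_re, Complex.ofReal_re, Complex.mul_re, Complex.I_re, Complex.ofReal_im,
    Complex.I_im, Complex.zero_re, Complex.add_im, Complex.mul_im, Complex.zero_im, mul_zero,
    mul_one, sub_zero, add_zero, zero_add] at h5 h6
  constructor
  · rw [hss]
    linear_combination h5
  · linear_combination h6 / 2

theorem ss_cases {r : ZMod p} (h0 : r ≠ 0) (h1 : r ≠ 1) (hm : r ≠ -1) :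
    ss r = 2 ∨ ss r = -2 := by
  have hm' : (1 : ZMod p) + r ≠ 0 := by
    intro h
    apply hm
    linear_combination h
  unfold ss
  rcases chi_cases h0 with h | h <;> rcases chi_cases hm' with h' | h' <;>
    rcases chi_cases (sub_ne_zero.2 h1) with h'' | h'' <;> rw [h, h', h''] <;> norm_num

/-- large primes -/
theorem large_case (h4 : p % 4 = 3) (h15 : 15 ≤ p) {u v z : ℂ} (hv : v ≠ 0)
    (hG : ∀ r : ZMod p, r ≠ 0 → G (lv u v z) 1 r = 0) : p ∣ 114 := by
  have hw : Complex.normSq v ≠ 0 := by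
    intro h
    exact hv (Complex.normSq_eq_zero.1 h)
  have hval : ∀ r r' : ZMod p, r ≠ 0 → r ≠ 1 → r ≠ -1 → r' ≠ 0 → r' ≠ 1 → r' ≠ -1 →
      ss r = ss r' → ee r = ee r' := by
    intro r r' h0 h1 hm h0' h1' hm' hs
    have e1 := (real_eqs h4 hG h0 h1 hm).1
    have e2 := (real_eqs h4 hG h0' h1' hm').1
    rw [hs] at e1
    have e3 : Complex.normSq v ^ 2 * ((ee r : ℝ) - (ee r' : ℝ)) = 0 := by
      linear_combination e1 - e2
    have e4 := (mul_eq_zero.1 e3).resolve_left (pow_ne_zero _ hw)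
    have e5 : (ee r : ℝ) = (ee r' : ℝ) := by linarith
    exact_mod_cast e5
  have hex : ∀ c : ℤ, ∃ e : ℤ, ∀ r : ZMod p, r ≠ 0 → r ≠ 1 → r ≠ -1 → ss r = c → ee r = e := by
    intro c
    by_cases h : ∃ r : ZMod p, r ≠ 0 ∧ r ≠ 1 ∧ r ≠ -1 ∧ ss r = c
    · obtain ⟨r, h0, h1, hm, hs⟩ := h
      exact ⟨ee r, fun r' h0' h1' hm' hs' => hval r' r h0' h1' hm' h0 h1 hm (by rw [hs, hs'])⟩
    · refine ⟨0, fun r h0 h1 hm hs => ?_⟩
      exact absurd ⟨r, h0, h1, hm, hs⟩ h
  obtain ⟨e1, he1⟩ := hex 2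
  obtain ⟨e2, he2⟩ := hex (-2)
  have n2 : (2 : ZMod p) ≠ 0 := two_ne (by omega)
  refine dvd_of_relation h15 (((e1 : ZMod p) + (e2 : ZMod p)) / 2)
    (((e1 : ZMod p) - (e2 : ZMod p)) / 2 ^ 2) fun r h0 h1 hm => ?_
  rcases ss_cases h0 h1 hm with hs | hs
  · rw [he1 r h0 h1 hm hs, hs]
    push_cast
    field_simp
    ring
  · rw [he2 r h0 h1 hm hs, hs]
    push_cast
    field_simp
    ring

end Pool.Agent.N392.Leg
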