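import Mathlib
import Pool.Agent.N392.Leg.Quad
import Pool.Agent.N392.Leg.Parity

/-!
# Squared moduli of Legendre type vectors
-/

set_option autoImplicit false

open Finset ComplexConjugate

namespace Pool.Agent.N392.Leg

variable {p : ℕ} [hp : Fact p.Prime]

/-- squared moduli -/
theorem lv_mul_conj (u v z : ℂ) (k : ZMod p) :
    conj (lv u v z k) * lv u v z k = (u * conj u + v * conj v) +
      (u * conj v + conj u * v) * (chi k : ℂ) +
      if k = 0 then (u + z) * conj (u + z) - (u * conj u + v * conj v) else 0 := by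
  unfold lv
  by_cases hk : k = 0
  · rw [if_pos hk, if_pos hk, hk, chi_zero]
    push_cast
    rw [mul_zero, add_zero]
    ring
  · rw [if_neg hk, if_neg hk]
    have h1 : (chi k : ℂ) * (chi k : ℂ) = 1 := by exact_mod_cast chi_sq hk
    have h2 : conj (chi k : ℂ) = (chi k : ℂ) := by simp
    rw [add_zero, map_add, map_mul (starRingEnd ℂ), h2]
    linear_combination (v * conj v) * h1

theorem sum_sq (h2 : p ≠ 2) (u v z : ℂ) :
    ∑ k : ZMod p, conj (lv u v z k) * lv u v z k =
      ((p : ℂ) - 1) * (u * conj u + v * conj v) + (u + z) * conj (u + z) := by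
  have hs0 : ∑ k : ZMod p, (chi k : ℂ) = 0 := by exact_mod_cast sum_chi (p := p) h2
  simp_rw [lv_mul_conj]
  set U := u * conj u + v * conj v with hU
  simp_rw [Finset.sum_add_distrib, ← Finset.mul_sum]
  rw [hs0, Finset.sum_ite_eq', if_pos (Finset.mem_univ _), Finset.sum_const, Finset.card_univ,
    ZMod.card, nsmul_eq_mul]
  ring

theorem G_zero (h4 : p % 4 = 3) (u v z : ℂ) {m : ZMod p} (hm : m ≠ 0) :
    G (lv u v z) 0 m = 2 * (u * conj u + v * conj v) * (u + z) * conj (u + z) +
      ((p : ℂ) - 2) * (u * conj u + v * conj v) ^ 2 - (u * conj v + conj u * v) ^ 2 := by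
  have h2 : p ≠ 2 := by omega
  have hs : ∀ a : ZMod p, ∑ k : ZMod p, (chi (k + a) : ℂ) = 0 := by
    intro a; exact_mod_cast sum_chi_add h2 a
  have hs0 : ∑ k : ZMod p, (chi k : ℂ) = 0 := by exact_mod_cast sum_chi (p := p) h2
  have hq : ∑ k : ZMod p, (chi k : ℂ) * (chi (k + m) : ℂ) = -1 := by
    exact_mod_cast sum_chi_mul h2 hm
  unfold G
  set U := u * conj u + v * conj v with hU
  set V := u * conj v + conj u * v with hV
  set W := (u + z) * conj (u + z) with hW
  have h1 : ∀ k : ZMod p, conj (lv u v z k) * lv u v z (k + 0) * lv u v z (k + m) *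
      conj (lv u v z (k + 0 + m)) = U ^ 2 + U * V * (chi k : ℂ) + U * V * (chi (k + m) : ℂ) +
      V ^ 2 * ((chi k : ℂ) * (chi (k + m) : ℂ)) +
      ((if k = 0 then (W - U) * (U + V * (chi m : ℂ)) else 0) +
       (if k = -m then (W - U) * (U - V * (chi m : ℂ)) else 0)) := by
    intro k
    have e1 : conj (lv u v z k) * lv u v z (k + 0) * lv u v z (k + m) *
      conj (lv u v z (k + 0 + m)) = (conj (lv u v z k) * lv u v z k) *
        (conj (lv u v z (k + m)) * lv u v z (k + m)) := by
      rw [add_zero]; ring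
    rw [e1, lv_mul_conj, lv_mul_conj, ← hU, ← hV, ← hW]
    by_cases k0 : k = 0
    · have a1 : (0 : ZMod p) ≠ -m := by
        intro h
        apply hm
        linear_combination h
      rw [k0, if_pos rfl, if_pos rfl, zero_add, if_neg hm, if_neg a1, chi_zero]
      push_cast
      ring
    · by_cases k1 : k = -m
      · rw [k1]
        have a1 : -m + m = 0 := by ring
        have a2 : -m ≠ 0 := neg_ne_zero.2 hm
        rw [a1, if_neg a2, if_neg a2, if_pos rfl, if_pos rfl, chi_zero, chi_neg h4]
        push_cast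
        ring
      · have a1 : k + m ≠ 0 := by
          intro h
          apply k1
          linear_combination h
        rw [if_neg k0, if_neg k0, if_neg k1, if_neg a1]
        ring
  simp_rw [h1, Finset.sum_add_distrib, ← Finset.mul_sum]
  rw [hs0, hs, hq, Finset.sum_ite_eq', if_pos (Finset.mem_univ _), Finset.sum_ite_eq',
    if_pos (Finset.mem_univ _), Finset.sum_const, Finset.card_univ, ZMod.card, nsmul_eq_mul]
  ring

theorem G_zero_zero (h2 : p ≠ 2) (u v z : ℂ) :
    G (lv u v z) (0 : ZMod p) 0 = ((u + z) * conj (u + z)) ^ 2 +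
      ((p : ℂ) - 1) * ((u * conj u + v * conj v) ^ 2 + (u * conj v + conj u * v) ^ 2) := by
  have hs0 : ∑ k : ZMod p, (chi k : ℂ) = 0 := by exact_mod_cast sum_chi (p := p) h2
  unfold G
  set U := u * conj u + v * conj v with hU
  set V := u * conj v + conj u * v with hV
  set W := (u + z) * conj (u + z) with hW
  have h1 : ∀ k : ZMod p, conj (lv u v z k) * lv u v z (k + 0) * lv u v z (k + 0) *
      conj (lv u v z (k + 0 + 0)) = (U ^ 2 + V ^ 2) + 2 * U * V * (chi k : ℂ) +
      (if k = 0 then W ^ 2 - (U ^ 2 + V ^ 2) else 0) := by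
    intro k
    have e1 : conj (lv u v z k) * lv u v z (k + 0) * lv u v z (k + 0) *
      conj (lv u v z (k + 0 + 0)) = (conj (lv u v z k) * lv u v z k) ^ 2 := by
      rw [add_zero, add_zero]; ring
    rw [e1, lv_mul_conj, ← hU, ← hV, ← hW]
    by_cases k0 : k = 0
    · rw [k0, if_pos rfl, if_pos rfl, chi_zero]
      push_cast
      ring
    · have h1 : (chi k : ℂ) * (chi k : ℂ) = 1 := by exact_mod_cast chi_sq k0
      rw [if_neg k0, if_neg k0]
      linear_combination V ^ 2 * h1
  simp_rw [h1, Finset.sum_add_distrib, ← Finset.mul_sum]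
  rw [hs0, Finset.sum_ite_eq', if_pos (Finset.mem_univ _)]
  simp only [Finset.sum_const, Finset.card_univ, ZMod.card, nsmul_eq_mul]
  ring

end Pool.Agent.N392.Leg
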