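import Mathlib
import Pool.Agent.N392.Leg.Sq
import Pool.Agent.N392.Leg.Nec

/-!
# Dimension eleven
-/

set_option autoImplicit false

open Finset ComplexConjugate

namespace Pool.Agent.N392.Leg

instance fact_eleven : Fact (Nat.Prime 11) := ⟨by norm_num⟩

/-- the final contradiction in dimension eleven -/
theorem eleven_real {n w zz R V : ℝ} (hw : 0 < w) (hn : 0 ≤ n) (hz : n * zz = w ^ 2)
    (hK : 11 * n ^ 2 - 8 * n * w - 2 * R = w ^ 2)
    (hnorm : 11 * n + 8 * w + zz = 1)
    (hG : 2 * (n + w) - 11 * (n + w) ^ 2 - V ^ 2 = 1 / 12)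
    (hcase : (V ^ 2 = 4 * n * w ∧ R = n * w) ∨ (V = 0 ∧ R = -(n * w))) : False := by
  have hn0 : 0 < n := by
    rcases hn.lt_or_eq with h | h
    · exact h
    · rw [← h, zero_mul] at hz
      nlinarith
  have hnn : 11 * n ^ 2 + 8 * n * w + w ^ 2 = n := by
    rw [← hz]
    linear_combination n * hnorm
  rcases hcase with ⟨hV, hR⟩ | ⟨hV, hR⟩
  · have h1 : (11 * n + w) * (n - w) = 0 := by
      rw [hR] at hK
      linear_combination hK
    have h2 : n - w = 0 := by
      rcases mul_eq_zero.1 h1 with h | h
      · nlinarith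
      · exact h
    have h3 : n = w := by linarith
    subst h3
    have h4 : n * (20 * n - 1) = 0 := by linear_combination hnn
    have h5 : n = 1 / 20 := by
      have := (mul_eq_zero.1 h4).resolve_left hn0.ne'
      linarith
    rw [hV, h5] at hG
    norm_num at hG
  · rw [hR] at hK
    rw [hV] at hG
    have e1 : 11 * n ^ 2 - 6 * n * w - w ^ 2 = 0 := by linear_combination hK
    have e2 : n * (1 - 14 * w) - 2 * w ^ 2 = 0 := by linear_combination e1 - hnn
    have e3 : 96 * w ^ 2 - 24 * w + 1 = 0 := by
      linear_combination (-12) * hG - 12 * e1 + 24 * e2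
    have e4 : w ^ 2 * (16 * w ^ 2 + 16 * w - 1) = 0 := by
      linear_combination (1 - 14 * w) ^ 2 * e1 -
        (11 * (n * (1 - 14 * w) + 2 * w ^ 2) - 6 * w * (1 - 14 * w)) * e2
    have e5 := (mul_eq_zero.1 e4).resolve_left (by positivity)
    have e6 : w = 7 / 120 := by linarith
    rw [e6] at e5
    norm_num at e5

/-- no Legendre type fiducial vector in dimension eleven -/
theorem eleven {x : EuclideanSpace ℂ (ZMod 11)} (hx : IsLegendre x)
    (h : IsFiducial x) : False := by
  obtain ⟨u, v, z, hx1⟩ := exists_lv (by norm_num) hx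
  have hx2 : x.ofLp = lv u v z := funext hx1
  have hG : ∀ a m : ZMod 11, G (lv u v z) a m =
      ((if a = 0 then 1 else 0) + (if m = 0 then 1 else 0)) / (((11 : ℕ) : ℂ) + 1) := by
    intro a m
    rw [← hx2]
    exact h.G_eq a m
  by_cases hv : v = 0
  · have h1 := even_case (by norm_num) h (by
      intro k
      rw [hx1, hx1]
      unfold lv
      rw [hv]
      simp)
    norm_num at h1
  have hG1 : ∀ r : ZMod 11, r ≠ 0 → G (lv u v z) 1 r = 0 := by
    intro r hr
    rw [hG, if_neg one_ne_zero, if_neg hr]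
    simp
  have v2 : chi (2 : ZMod 11) = -1 := by unfold chi; decide
  have v3 : chi (3 : ZMod 11) = 1 := by unfold chi; decide
  have v12 : chi (1 + 2 : ZMod 11) = 1 := by unfold chi; decide
  have v21 : chi (2 - 1 : ZMod 11) = 1 := by unfold chi; decide
  have v13 : chi (1 + 3 : ZMod 11) = 1 := by unfold chi; decide
  have v31 : chi (3 - 1 : ZMod 11) = -1 := by unfold chi; decide
  have s2 : ss (2 : ZMod 11) = -2 := by unfold ss chi; decide
  have s3 : ss (3 : ZMod 11) = 2 := by unfold ss chi; decide
  have ee2 : ee (2 : ZMod 11) = -5 := by unfold ee chi; decide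
  have ee3 : ee (3 : ZMod 11) = 3 := by unfold ee chi; decide
  obtain ⟨r2, i2⟩ := real_eqs (by norm_num) hG1 (r := (2 : ZMod 11)) (by decide) (by decide)
    (by decide)
  obtain ⟨r3, i3⟩ := real_eqs (by norm_num) hG1 (r := (3 : ZMod 11)) (by decide) (by decide)
    (by decide)
  rw [s2, ee2] at r2
  rw [s3, ee3] at r3
  rw [v2, v12, v21] at i2
  rw [v3, v13, v31] at i3
  push_cast at r2 r3 i2 i3
  have hnorm : ov x.ofLp 0 0 = 1 := by
    rw [← norm_sq_eq]
    have h1 := h.1 0
    rw [norm_shift] at h1
    rw [h1]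
    norm_num
  have hnorm2 : ∑ k : ZMod 11, conj (lv u v z k) * lv u v z k = 1 := by
    rw [← hnorm, hx2]
    unfold ov
    refine Finset.sum_congr rfl fun k _ => ?_
    simp
  rw [sum_sq (by norm_num)] at hnorm2
  have hG01 := hG 0 1
  rw [G_zero (by norm_num) u v z one_ne_zero, if_pos rfl, if_neg one_ne_zero] at hG01
  set n := Complex.normSq u with hn
  set w := Complex.normSq v with hw
  have hw0 : 0 < w := Complex.normSq_pos.2 hv
  have hn0 : 0 ≤ n := Complex.normSq_nonneg u
  set c := z * conj u with hc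
  -- consequences of the two real equations
  have hk : c.re = -w := by
    have : w * (c.re + w) = 0 := by linear_combination (r3 - r2) / 8
    have := (mul_eq_zero.1 this).resolve_left hw0.ne'
    linarith
  have hJ : (conj z * conj u * v ^ 2).im = 0 ∧ c.im = 0 := by
    have e1 : w * c.im = 0 := by linear_combination (-1 / 4) * i2 - 1 / 4 * i3
    have e2 := (mul_eq_zero.1 e1).resolve_left hw0.ne'
    rw [e2] at i3
    exact ⟨by linear_combination i3 / 2, e2⟩
  obtain ⟨hJ, hI⟩ := hJ
  have hcw : c = ((-w : ℝ) : ℂ) := by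
    apply Complex.ext
    · rw [hk, Complex.ofReal_re]
    · rw [hI, Complex.ofReal_im]
  have hcw' : conj z * u = ((-w : ℝ) : ℂ) := by
    have : conj z * u = conj c := by
      rw [hc, map_mul (starRingEnd ℂ), Complex.conj_conj]
    rw [this, hcw, Complex.conj_ofReal]
  set g := conj u * v with hg
  have hq : conj u ^ 2 * v ^ 2 = g ^ 2 := by rw [hg]; ring
  rw [hq] at r2 r3
  have hgn : g.re ^ 2 + g.im ^ 2 = n * w := by
    have : Complex.normSq g = n * w := by
      rw [hg, Complex.normSq_mul, Complex.normSq_conj]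
    rw [← this, Complex.normSq_apply]
    ring
  have hqre : (g ^ 2).re = g.re ^ 2 - g.im ^ 2 := by
    rw [sq, Complex.mul_re]; ring
  have hqim : (g ^ 2).im = 2 * g.re * g.im := by
    rw [sq, Complex.mul_im]; ring
  have hnz : n * Complex.normSq z = w ^ 2 := by
    have h1 : Complex.normSq c = w ^ 2 := by
      rw [hcw, Complex.normSq_ofReal]; ring
    rw [← h1, hc, Complex.normSq_mul, Complex.normSq_conj]
    ring
  have hqi : g.re * g.im = 0 := by
    have h1 : (n : ℂ) * (conj z * conj u * v ^ 2) = ((-w : ℝ) : ℂ) * g ^ 2 := by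
      rw [← hcw', hn, ← Complex.mul_conj, hg]
      ring
    have h2 := congrArg Complex.im h1
    rw [Complex.im_ofReal_mul, Complex.im_ofReal_mul, hJ, mul_zero, hqim] at h2
    have h3 : w * (g.re * g.im) = 0 := by linear_combination h2 / 2
    exact (mul_eq_zero.1 h3).resolve_left hw0.ne'
  have hVg : u * conj v + conj u * v = ((2 * g.re : ℝ) : ℂ) := by
    have : u * conj v = conj g := by
      rw [hg, map_mul (starRingEnd ℂ), Complex.conj_conj]
    rw [this, ← hg]
    apply Complex.ext
    · simp
      ring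
    · simp
  have hX : (u + z) * conj (u + z) = ((n - 2 * w + Complex.normSq z : ℝ) : ℂ) := by
    have h1 : (u + z) * conj (u + z) = u * conj u + z * conj z + (conj z * u + c) := by
      rw [map_add, hc]; ring
    rw [h1, hcw, hcw', Complex.mul_conj, Complex.mul_conj]
    push_cast
    ring
  rw [hX, Complex.mul_conj, Complex.mul_conj] at hnorm2
  rw [mul_assoc, hX, Complex.mul_conj, Complex.mul_conj, hVg] at hG01
  have hN : 11 * n + 8 * w + Complex.normSq z = 1 := by
    have h1 : ((11 * n + 8 * w + Complex.normSq z : ℝ) : ℂ) = ((1 : ℝ) : ℂ) := by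
      push_cast
      push_cast at hnorm2
      linear_combination hnorm2
    exact Complex.ofReal_injective h1
  refine eleven_real (n := n) (w := w) (zz := Complex.normSq z) (R := (g ^ 2).re)
    (V := 2 * g.re) hw0 hn0 hnz ?_ hN ?_ ?_
  · rw [hk] at r2 r3
    linear_combination (5 * r3 + 3 * r2) / 8
  · have h1 : ((2 * (n + w) - 11 * (n + w) ^ 2 - (2 * g.re) ^ 2 : ℝ) : ℂ) =
        ((1 / 12 : ℝ) : ℂ) := by
      have hz : (Complex.normSq z : ℂ) = 1 - 11 * (n : ℂ) - 8 * (w : ℂ) := by
        have := congrArg (fun t : ℝ => (t : ℂ)) hN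
        push_cast at this
        linear_combination this
      push_cast at hG01 ⊢
      rw [hz] at hG01
      linear_combination hG01
    exact Complex.ofReal_injective h1
  · rcases mul_eq_zero.1 hqi with h1 | h1
    · right
      rw [h1] at hqre hgn ⊢
      refine ⟨by ring, ?_⟩
      rw [hqre]
      linear_combination -hgn
    · left
      rw [h1] at hqre hgn
      refine ⟨by linear_combination 4 * hgn, ?_⟩
      rw [hqre]
      linear_combination hgn

end Pool.Agent.N392.Leg
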