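import Mathlib
import Pool.Agent.N392.Leg.Sq

/-!
# Legendre type fiducial vectors: sufficient conditions
-/

set_option autoImplicit false

open Finset ComplexConjugate

namespace Pool.Agent.N392.Leg

variable {p : ℕ} [hp : Fact p.Prime]

theorem lv_scale (u v z : ℂ) {s : ZMod p} (hs : s ≠ 0) (k : ZMod p) :
    lv u v z (s ^ 2 * k) = lv u v z k := by
  unfold lv
  have h1 : chi (s ^ 2 * k) = chi k := by
    rw [chi_mul, sq, chi_mul, chi_sq hs, one_mul]
  rw [h1]
  by_cases hk : k = 0
  · rw [hk, mul_zero]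
  · rw [if_neg hk, if_neg (mul_ne_zero (pow_ne_zero _ hs) hk)]

theorem G_scale (u v z : ℂ) {s : ZMod p} (hs : s ≠ 0) (a m : ZMod p) :
    G (lv u v z) (s ^ 2 * a) (s ^ 2 * m) = G (lv u v z) a m := by
  unfold G
  symm
  refine Fintype.sum_equiv (Equiv.mulLeft₀ (s ^ 2) (pow_ne_zero _ hs)) _ _ fun k => ?_
  rw [Equiv.mulLeft₀_apply]
  have e1 : s ^ 2 * k + s ^ 2 * a = s ^ 2 * (k + a) := by ring
  have e2 : s ^ 2 * k + s ^ 2 * m = s ^ 2 * (k + m) := by ring
  have e3 : s ^ 2 * (k + a) + s ^ 2 * m = s ^ 2 * (k + a + m) := by ring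
  rw [e1, e2, e3, lv_scale u v z hs, lv_scale u v z hs, lv_scale u v z hs, lv_scale u v z hs]

theorem G_neg (x : ZMod p → ℂ) (a m : ZMod p) : G x (-a) (-m) = G x a m := by
  unfold G
  refine Fintype.sum_equiv (Equiv.subRight (a + m)) _ _ fun k => ?_
  rw [Equiv.subRight_apply]
  have e1 : k - (a + m) = k + -a + -m := by ring
  have e2 : k + -a + -m + a = k + -m := by ring
  have e3 : k + -a + -m + m = k + -a := by ring
  have e4 : k + -m + m = k := by ring
  rw [e1, e2, e3, e4]
  ring

theorem G_swap (x : ZMod p → ℂ) (a m : ZMod p) : G x a m = G x m a := by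
  unfold G
  refine Finset.sum_congr rfl fun k _ => ?_
  have e : k + a + m = k + m + a := by ring
  rw [e]
  ring

/-- reduction to finitely many equations -/
theorem fiducial_of (h4 : p % 4 = 3) {u v z : ℂ}
    (hn : ∑ k : ZMod p, conj (lv u v z k) * lv u v z k = 1)
    (h00 : G (lv u v z) (0 : ZMod p) 0 = 2 / ((p : ℂ) + 1))
    (h01 : ∀ m : ZMod p, m ≠ 0 → G (lv u v z) 0 m = 1 / ((p : ℂ) + 1))
    (h1 : ∀ r : ZMod p, r ≠ 0 → G (lv u v z) 1 r = 0) :
    ∃ x : EuclideanSpace ℂ (ZMod p), IsLegendre x ∧ IsFiducial x := by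
  refine ⟨WithLp.toLp 2 (lv u v z), fun s k hs => lv_scale u v z hs k, ?_⟩
  apply isFiducial_of_G
  · have h2 : ((‖(WithLp.toLp 2 (lv u v z) : EuclideanSpace ℂ (ZMod p))‖ ^ 2 : ℝ) : ℂ) = 1 := by
      rw [norm_sq_eq, ← hn]
      unfold ov
      refine Finset.sum_congr rfl fun k _ => ?_
      simp
    have h3 : ‖(WithLp.toLp 2 (lv u v z) : EuclideanSpace ℂ (ZMod p))‖ ^ 2 = 1 ^ 2 := by
      rw [one_pow]
      exact_mod_cast h2
    exact (pow_left_inj₀ (norm_nonneg _) zero_le_one two_ne_zero).1 h3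
  · intro a m
    change G (lv u v z) a m = _
    by_cases ha : a = 0
    · rw [ha, if_pos rfl]
      by_cases hm : m = 0
      · rw [hm, if_pos rfl, h00]
        norm_num
      · rw [if_neg hm, h01 m hm, add_zero]
    · rw [if_neg ha]
      by_cases hm : m = 0
      · rw [hm, if_pos rfl, G_swap, h01 a ha, zero_add]
      · rw [if_neg hm, add_zero, zero_div]
        rcases quadraticChar_dichotomy ha with h | h
        · obtain ⟨s, hs⟩ := (quadraticChar_one_iff_isSquare ha).1 h
          have hs0 : s ≠ 0 := by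
            rintro rfl
            exact ha (by rw [hs, mul_zero])
          have h2 := G_scale u v z hs0 1 ((s ^ 2)⁻¹ * m)
          have e1 : s ^ 2 * 1 = a := by rw [hs]; ring
          have e2 : s ^ 2 * ((s ^ 2)⁻¹ * m) = m := by
            field_simp
          rw [e1, e2] at h2
          rw [h2]
          exact h1 _ (mul_ne_zero (inv_ne_zero (pow_ne_zero _ hs0)) hm)
        · have h5 : chi (-a) = 1 := by
            rw [chi_neg h4]
            unfold chi
            rw [h, neg_neg]
          have ha' : -a ≠ 0 := neg_ne_zero.2 ha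
          unfold chi at h5
          obtain ⟨s, hs⟩ := (quadraticChar_one_iff_isSquare ha').1 h5
          have hs0 : s ≠ 0 := by
            rintro rfl
            exact ha' (by rw [hs, mul_zero])
          have h2 := G_scale u v z hs0 1 ((s ^ 2)⁻¹ * (-m))
          have e1 : s ^ 2 * 1 = -a := by rw [hs]; ring
          have e2 : s ^ 2 * ((s ^ 2)⁻¹ * (-m)) = -m := by
            field_simp
          rw [e1, e2, G_neg] at h2
          rw [h2]
          exact h1 _ (mul_ne_zero (inv_ne_zero (pow_ne_zero _ hs0)) (neg_ne_zero.2 hm))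

/-- `G (1, 1)` for a real vector -/
theorem G_one_one (h4 : p % 4 = 3) {u v z : ℂ} (hu : conj u = u) (hv : conj v = v)
    (hz : conj z = z) :
    G (lv u v z) (1 : ZMod p) 1 = (u ^ 2 + v ^ 2) * (p * u ^ 2 - v ^ 2 + 2 * u * z) +
      4 * u * v ^ 2 * (z * (chi (2 : ZMod p) : ℂ) - u) +
      ((u + z) ^ 2 - (u ^ 2 + v ^ 2)) * (u ^ 2 - v ^ 2) := by
  have h2 : p ≠ 2 := by omega
  have n2 : (2 : ZMod p) ≠ 0 := two_ne h2
  have hs : ∀ a : ZMod p, ∑ k : ZMod p, (chi (k + a) : ℂ) = 0 := by
    intro a; exact_mod_cast sum_chi_add h2 a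
  have hs0 : ∑ k : ZMod p, (chi k : ℂ) = 0 := by exact_mod_cast sum_chi (p := p) h2
  have hq : ∀ a b : ZMod p, a ≠ b → ∑ k : ZMod p, (chi (k + a) : ℂ) * (chi (k + b) : ℂ) = -1 := by
    intro a b hab; exact_mod_cast sum_chi_pair h2 hab
  have q01 : ∑ k : ZMod p, (chi k : ℂ) * (chi (k + 1) : ℂ) = -1 := by
    have := hq 0 1 (by exact zero_ne_one)
    simpa only [add_zero] using this
  have q02 : ∑ k : ZMod p, (chi k : ℂ) * (chi (k + 2) : ℂ) = -1 := by
    have := hq 0 2 (Ne.symm n2)
    simpa only [add_zero] using this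
  have q12 : ∑ k : ZMod p, (chi (k + 1) : ℂ) * (chi (k + 2) : ℂ) = -1 := hq 1 2 (by
    intro h
    have : (1 : ZMod p) = 0 := by linear_combination -h
    exact one_ne_zero this)
  have hC : ∑ k : ZMod p, (chi k : ℂ) * (chi (k + 1) : ℂ) * (chi (k + 2) : ℂ) = 0 := by
    have h5 : ∑ k : ZMod p, (chi k : ℂ) * (chi (k + 1) : ℂ) * (chi (k + 2) : ℂ) =
        ∑ k : ZMod p, -((chi k : ℂ) * (chi (k + 1) : ℂ) * (chi (k + 2) : ℂ)) := by
      refine Fintype.sum_equiv (Equiv.subLeft (-2)) _ _ fun k => ?_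
      rw [Equiv.subLeft_apply]
      have e1 : -2 - k = -(k + 2) := by ring
      have e2 : -2 - k + 1 = -(k + 1) := by ring
      have e3 : -2 - k + 2 = -k := by ring
      rw [e2, e3, e1, chi_neg h4, chi_neg h4, chi_neg h4]
      push_cast
      ring
    rw [Finset.sum_neg_distrib] at h5
    linear_combination h5 / 2
  have hc : ∀ k : ZMod p, conj (lv u v z k) = lv u v z k := by
    intro k
    unfold lv
    rw [map_add, map_add, map_mul (starRingEnd ℂ), apply_ite (starRingEnd ℂ), map_zero, hu, hv, hz]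
    simp
  have hterm : ∀ k : ZMod p, conj (lv u v z k) * lv u v z (k + 1) * lv u v z (k + 1) *
      conj (lv u v z (k + 1 + 1)) =
      (u ^ 2 + v ^ 2) * (u ^ 2 + u * v * (chi k : ℂ) + u * v * (chi (k + 2) : ℂ) +
        v ^ 2 * ((chi k : ℂ) * (chi (k + 2) : ℂ))) +
      2 * u * v * (u ^ 2 * (chi (k + 1) : ℂ) + u * v * ((chi k : ℂ) * (chi (k + 1) : ℂ)) +
        u * v * ((chi (k + 1) : ℂ) * (chi (k + 2) : ℂ)) +
        v ^ 2 * ((chi k : ℂ) * (chi (k + 1) : ℂ) * (chi (k + 2) : ℂ))) +
      ((if k = 0 then z * (u + v * (chi (2 : ZMod p) : ℂ)) * (u + v) ^ 2 else 0) +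
       (if k = -2 then z * (u - v * (chi (2 : ZMod p) : ℂ)) * (u - v) ^ 2 else 0) +
       (if k = -1 then ((u + z) ^ 2 - (u ^ 2 + v ^ 2)) * (u ^ 2 - v ^ 2) else 0)) := by
    intro k
    rw [hc, hc]
    have e0 : k + 1 + 1 = k + 2 := by ring
    rw [e0]
    unfold lv
    by_cases k0 : k = 0
    · subst k0
      have a1 : (0 : ZMod p) ≠ -1 := by
        intro h
        have : (1 : ZMod p) = 0 := by linear_combination h
        exact one_ne_zero this
      have a2 : (0 : ZMod p) ≠ -2 := by
        intro h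
        apply n2
        linear_combination h
      simp only [zero_add, if_true, if_neg a1, if_neg a2, if_neg n2,
        if_neg (one_ne_zero (α := ZMod p)), chi_zero, chi_one]
      push_cast
      ring
    by_cases k2 : k = -2
    · subst k2
      have e1 : -2 + 1 = (-1 : ZMod p) := by ring
      have e2 : -2 + 2 = (0 : ZMod p) := by ring
      have a1 : (-2 : ZMod p) ≠ -1 := by
        intro h
        have : (1 : ZMod p) = 0 := by linear_combination -h
        exact one_ne_zero this
      have a2 : (-1 : ZMod p) ≠ 0 := neg_ne_zero.2 one_ne_zero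
      simp only [e1, e2, if_true, if_neg a1, if_neg a2, if_neg k0, chi_zero, chi_neg_one h4,
        chi_neg h4]
      push_cast
      ring
    by_cases k1 : k = -1
    · subst k1
      have e1 : -1 + 1 = (0 : ZMod p) := by ring
      have e2 : -1 + 2 = (1 : ZMod p) := by ring
      simp only [e1, e2, if_true, if_neg k2, if_neg k0, if_neg (one_ne_zero (α := ZMod p)),
        chi_zero, chi_one, chi_neg_one h4]
      push_cast
      ring
    · have b1 : k + 1 ≠ 0 := by
        intro h
        apply k1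
        linear_combination h
      have b2 : k + 2 ≠ 0 := by
        intro h
        apply k2
        linear_combination h
      have h1 : (chi (k + 1) : ℂ) * (chi (k + 1) : ℂ) = 1 := by exact_mod_cast chi_sq b1
      rw [if_neg k0, if_neg k0, if_neg k1, if_neg k2, if_neg b1, if_neg b2]
      linear_combination (v ^ 2 * (u + v * (chi k : ℂ)) * (u + v * (chi (k + 2) : ℂ))) * h1
  unfold G
  rw [Finset.sum_congr rfl fun k _ => hterm k]
  simp only [Finset.sum_add_distrib, ← Finset.mul_sum, Finset.sum_ite_eq', Finset.mem_univ,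
    if_true, hs0, hs, q01, q02, q12, hC, Finset.sum_const, Finset.card_univ, ZMod.card,
    nsmul_eq_mul]
  ring

end Pool.Agent.N392.Leg
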