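import Mathlib
import Pool.Agent.N392.Leg.Suf

/-!
# Legendre type fiducial vectors: existence in dimensions 2, 3, 7 and 19
-/

set_option autoImplicit false

open Finset ComplexConjugate

namespace Pool.Agent.N392.Leg

variable {p : ℕ} [hp : Fact p.Prime]

/-- real Legendre type fiducial vectors -/
theorem real_fiducial (h4 : p % 4 = 3) (u v z : ℝ)
    (hn : ((p : ℝ) - 1) * (u ^ 2 + v ^ 2) + (u + z) ^ 2 = 1)
    (h00 : (u + z) ^ 4 + ((p : ℝ) - 1) * ((u ^ 2 + v ^ 2) ^ 2 + 4 * u ^ 2 * v ^ 2) =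
      2 / ((p : ℝ) + 1))
    (h01 : 2 * (u ^ 2 + v ^ 2) * (u + z) ^ 2 + ((p : ℝ) - 2) * (u ^ 2 + v ^ 2) ^ 2 -
      4 * u ^ 2 * v ^ 2 = 1 / ((p : ℝ) + 1))
    (h11 : (u ^ 2 + v ^ 2) * (p * u ^ 2 - v ^ 2 + 2 * u * z) +
      4 * u * v ^ 2 * (z * (chi (2 : ZMod p) : ℝ) - u) +
      ((u + z) ^ 2 - (u ^ 2 + v ^ 2)) * (u ^ 2 - v ^ 2) = 0)
    (h1 : ∀ r : ZMod p, r ≠ 0 → r ≠ 1 → r ≠ -1 → p * u ^ 4 - 6 * u ^ 2 * v ^ 2 +
      v ^ 4 * (ee r : ℝ) + 4 * u ^ 3 * z + 2 * v ^ 2 * z * u * (ss r : ℝ) = 0) :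
    ∃ x : EuclideanSpace ℂ (ZMod p), IsLegendre x ∧ IsFiducial x := by
  have h2 : p ≠ 2 := by omega
  have h11' : G (lv (u : ℂ) (v : ℂ) (z : ℂ)) (1 : ZMod p) 1 = 0 := by
    rw [G_one_one h4 (Complex.conj_ofReal u) (Complex.conj_ofReal v) (Complex.conj_ofReal z)]
    have := congrArg (fun t : ℝ => (t : ℂ)) h11
    push_cast at this
    exact this
  apply fiducial_of h4 (u := (u : ℂ)) (v := (v : ℂ)) (z := (z : ℂ))
  · rw [sum_sq h2, map_add, Complex.conj_ofReal, Complex.conj_ofReal, Complex.conj_ofReal]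
    have := congrArg (fun t : ℝ => (t : ℂ)) hn
    push_cast at this
    linear_combination this
  · rw [G_zero_zero h2, map_add, Complex.conj_ofReal, Complex.conj_ofReal, Complex.conj_ofReal]
    have := congrArg (fun t : ℝ => (t : ℂ)) h00
    push_cast at this
    linear_combination this
  · intro m hm
    rw [G_zero h4 _ _ _ hm, map_add, Complex.conj_ofReal, Complex.conj_ofReal,
      Complex.conj_ofReal]
    have := congrArg (fun t : ℝ => (t : ℂ)) h01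
    push_cast at this
    linear_combination this
  · intro r hr
    by_cases hr1 : r = 1
    · rw [hr1]
      exact h11'
    by_cases hrm : r = -1
    · rw [hrm, ← h11']
      have hc : ∀ k : ZMod p, conj (lv (u : ℂ) (v : ℂ) (z : ℂ) k) =
          lv (u : ℂ) (v : ℂ) (z : ℂ) k := by
        intro k
        unfold lv
        rw [map_add, map_add, map_mul (starRingEnd ℂ), apply_ite (starRingEnd ℂ), map_zero,
          Complex.conj_ofReal, Complex.conj_ofReal, Complex.conj_ofReal]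
        simp
      unfold G
      refine Fintype.sum_equiv (Equiv.subRight 1) _ _ fun k => ?_
      rw [Equiv.subRight_apply, hc, hc, hc, hc]
      have e1 : k + 1 + -1 = k := by ring
      have e2 : k - 1 + 1 = k := by ring
      have e3 : k + -1 = k - 1 := by ring
      rw [e1, e2, e3]
      ring
    · rw [G_lv h4 _ _ _ hr hr1 hrm, Complex.conj_ofReal, Complex.conj_ofReal,
        Complex.conj_ofReal]
      have := congrArg (fun t : ℝ => (t : ℂ)) (h1 r hr hr1 hrm)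
      unfold ss at this
      push_cast at this
      linear_combination this

instance fact_three : Fact (Nat.Prime 3) := ⟨by norm_num⟩
instance fact_seven : Fact (Nat.Prime 7) := ⟨by norm_num⟩
instance fact_nineteen : Fact (Nat.Prime 19) := ⟨by norm_num⟩

theorem three : ∃ x : EuclideanSpace ℂ (ZMod 3), IsLegendre x ∧ IsFiducial x := by
  have hs : Real.sqrt (1 / 2) ^ 2 = 1 / 2 := Real.sq_sqrt (by norm_num)
  apply real_fiducial (by norm_num) 0 (Real.sqrt (1 / 2)) 0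
  · rw [hs]; norm_num
  · rw [hs]; norm_num
  · rw [hs]; norm_num
  · rw [hs]; norm_num
  · intro r h0 h1 hm
    exfalso
    revert r
    decide

theorem seven : ∃ x : EuclideanSpace ℂ (ZMod 7), IsLegendre x ∧ IsFiducial x := by
  set t := Real.sqrt 2 with ht
  have ht2 : t ^ 2 = 2 := Real.sq_sqrt (by norm_num)
  have ht0 : 0 ≤ t := Real.sqrt_nonneg 2
  have ht1 : t ≤ 2 := by nlinarith
  set u := Real.sqrt ((6 + 5 * t) / 112) with hu
  set v := Real.sqrt ((2 - t) / 16) with hv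
  have hu2 : u ^ 2 = (6 + 5 * t) / 112 := Real.sq_sqrt (by positivity)
  have hv2 : v ^ 2 = (2 - t) / 16 := Real.sq_sqrt (by linarith)
  have h2 : chi (2 : ZMod 7) = 1 := by unfold chi; decide
  have hes : ∀ r : ZMod 7, r ≠ 0 → r ≠ 1 → r ≠ -1 → ee r = -1 ∧ ss r = -2 := by
    unfold ee ss chi
    decide
  apply real_fiducial (by norm_num) u v ((1 - 2 * t) * u)
  · have e : (((7 : ℕ) : ℝ) - 1) * (u ^ 2 + v ^ 2) + (u + (1 - 2 * t) * u) ^ 2 =
        6 * (u ^ 2 + v ^ 2) + (2 - 2 * t) ^ 2 * u ^ 2 := by push_cast; ring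
    rw [e, hu2, hv2]
    linear_combination ((-1/7) + (5/28) * t) * ht2
  · have e : (u + (1 - 2 * t) * u) ^ 4 +
        (((7 : ℕ) : ℝ) - 1) * ((u ^ 2 + v ^ 2) ^ 2 + 4 * u ^ 2 * v ^ 2) =
        ((2 - 2 * t) ^ 2 * u ^ 2) ^ 2 + 6 * ((u ^ 2 + v ^ 2) ^ 2 + 4 * u ^ 2 * v ^ 2) := by
      push_cast; ring
    rw [e, hu2, hv2]
    push_cast
    linear_combination ((-29/392) + (9/196) * t ^ 1 + (-1/196) * t ^ 2 + (-5/98) * t ^ 3 +
      (25/784) * t ^ 4) * ht2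
  · have e : 2 * (u ^ 2 + v ^ 2) * (u + (1 - 2 * t) * u) ^ 2 +
        (((7 : ℕ) : ℝ) - 2) * (u ^ 2 + v ^ 2) ^ 2 - 4 * u ^ 2 * v ^ 2 =
        2 * (u ^ 2 + v ^ 2) * ((2 - 2 * t) ^ 2 * u ^ 2) + 5 * (u ^ 2 + v ^ 2) ^ 2 -
        4 * u ^ 2 * v ^ 2 := by push_cast; ring
    rw [e, hu2, hv2]
    push_cast
    linear_combination ((-33/784) + (27/392) * t ^ 1 + (-5/784) * t ^ 2) * ht2
  · rw [h2]
    have e : (u ^ 2 + v ^ 2) * (((7 : ℕ) : ℝ) * u ^ 2 - v ^ 2 + 2 * u * ((1 - 2 * t) * u)) +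
        4 * u * v ^ 2 * ((1 - 2 * t) * u * ((1 : ℤ) : ℝ) - u) +
        ((u + (1 - 2 * t) * u) ^ 2 - (u ^ 2 + v ^ 2)) * (u ^ 2 - v ^ 2) =
        (u ^ 2 + v ^ 2) * (7 * u ^ 2 - v ^ 2 + 2 * (1 - 2 * t) * u ^ 2) +
        4 * u ^ 2 * v ^ 2 * (-2 * t) +
        ((2 - 2 * t) ^ 2 * u ^ 2 - (u ^ 2 + v ^ 2)) * (u ^ 2 - v ^ 2) := by push_cast; ring
    rw [e, hu2, hv2]
    linear_combination ((-3/98) + (-1/392) * t ^ 1 + (15/784) * t ^ 2) * ht2
  · intro r h0 h1 hm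
    obtain ⟨he, hs⟩ := hes r h0 h1 hm
    rw [he, hs]
    have e : ((7 : ℕ) : ℝ) * u ^ 4 - 6 * u ^ 2 * v ^ 2 + v ^ 4 * ((-1 : ℤ) : ℝ) +
        4 * u ^ 3 * ((1 - 2 * t) * u) + 2 * v ^ 2 * ((1 - 2 * t) * u) * u * ((-2 : ℤ) : ℝ) =
        7 * (u ^ 2) ^ 2 - 6 * u ^ 2 * v ^ 2 - (v ^ 2) ^ 2 +
        4 * (u ^ 2) ^ 2 * (1 - 2 * t) - 4 * v ^ 2 * (1 - 2 * t) * u ^ 2 := by
      push_cast; ring
    rw [e, hu2, hv2]
    linear_combination ((5/196) + (-15/392) * t) * ht2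

theorem nineteen : ∃ x : EuclideanSpace ℂ (ZMod 19), IsLegendre x ∧ IsFiducial x := by
  set t := Real.sqrt 5 with ht
  have ht2 : t ^ 2 = 5 := Real.sq_sqrt (by norm_num)
  have ht0 : 0 ≤ t := Real.sqrt_nonneg 5
  have ht1 : t ≤ 5 := by nlinarith
  have ht3 : 1 ≤ t := by
    by_contra h
    push Not at h
    nlinarith
  set u := Real.sqrt ((9 * t - 5) / 1520) with hu
  set v := Real.sqrt ((5 - t) / 80) with hv
  have hu2 : u ^ 2 = (9 * t - 5) / 1520 := Real.sq_sqrt (by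
    apply div_nonneg <;> linarith)
  have hv2 : v ^ 2 = (5 - t) / 80 := Real.sq_sqrt (by
    apply div_nonneg <;> linarith)
  have h2 : chi (2 : ZMod 19) = -1 := by unfold chi; decide
  have hes : ∀ r : ZMod 19, r ≠ 0 → r ≠ 1 → r ≠ -1 → ee r = -1 - 2 * ss r := by
    unfold ee ss chi
    decide
  apply real_fiducial (by norm_num) u v ((2 * t - 1) * u)
  · have e : (((19 : ℕ) : ℝ) - 1) * (u ^ 2 + v ^ 2) + (u + (2 * t - 1) * u) ^ 2 =
        18 * (u ^ 2 + v ^ 2) + (2 * t) ^ 2 * u ^ 2 := by push_cast; ring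
    rw [e, hu2, hv2]
    linear_combination ((-1/76) + (9/380) * t) * ht2
  · have e : (u + (2 * t - 1) * u) ^ 4 +
        (((19 : ℕ) : ℝ) - 1) * ((u ^ 2 + v ^ 2) ^ 2 + 4 * u ^ 2 * v ^ 2) =
        ((2 * t) ^ 2 * u ^ 2) ^ 2 + 18 * ((u ^ 2 + v ^ 2) ^ 2 + 4 * u ^ 2 * v ^ 2) := by
      push_cast; ring
    rw [e, hu2, hv2]
    push_cast
    linear_combination ((1493/144400) + (-9/2888) * t ^ 1 + (43/14440) * t ^ 2 +
      (-9/14440) * t ^ 3 + (81/144400) * t ^ 4) * ht2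
  · have e : 2 * (u ^ 2 + v ^ 2) * (u + (2 * t - 1) * u) ^ 2 +
        (((19 : ℕ) : ℝ) - 2) * (u ^ 2 + v ^ 2) ^ 2 - 4 * u ^ 2 * v ^ 2 =
        2 * (u ^ 2 + v ^ 2) * ((2 * t) ^ 2 * u ^ 2) + 17 * (u ^ 2 + v ^ 2) ^ 2 -
        4 * u ^ 2 * v ^ 2 := by push_cast; ring
    rw [e, hu2, hv2]
    push_cast
    linear_combination ((-301/144400) + (43/14440) * t ^ 1 + (-9/28880) * t ^ 2) * ht2
  · rw [h2]
    have e : (u ^ 2 + v ^ 2) * (((19 : ℕ) : ℝ) * u ^ 2 - v ^ 2 + 2 * u * ((2 * t - 1) * u)) +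
        4 * u * v ^ 2 * ((2 * t - 1) * u * ((-1 : ℤ) : ℝ) - u) +
        ((u + (2 * t - 1) * u) ^ 2 - (u ^ 2 + v ^ 2)) * (u ^ 2 - v ^ 2) =
        (u ^ 2 + v ^ 2) * (19 * u ^ 2 - v ^ 2 + 2 * (2 * t - 1) * u ^ 2) -
        4 * u ^ 2 * v ^ 2 * (2 * t) +
        ((2 * t) ^ 2 * u ^ 2 - (u ^ 2 + v ^ 2)) * (u ^ 2 - v ^ 2) := by push_cast; ring
    rw [e, hu2, hv2]
    linear_combination ((9/14440) + (-197/144400) * t ^ 1 + (63/144400) * t ^ 2) * ht2
  · intro r h0 h1 hm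
    rw [hes r h0 h1 hm]
    have e : ((19 : ℕ) : ℝ) * u ^ 4 - 6 * u ^ 2 * v ^ 2 + v ^ 4 * ((-1 - 2 * ss r : ℤ) : ℝ) +
        4 * u ^ 3 * ((2 * t - 1) * u) + 2 * v ^ 2 * ((2 * t - 1) * u) * u * ((ss r : ℤ) : ℝ) =
        (19 * (u ^ 2) ^ 2 - 6 * u ^ 2 * v ^ 2 - (v ^ 2) ^ 2 +
        4 * (u ^ 2) ^ 2 * (2 * t - 1)) +
        (ss r : ℝ) * (2 * v ^ 2 * ((2 * t - 1) * u ^ 2 - v ^ 2)) := by
      push_cast; ring
    rw [e, hu2, hv2]
    linear_combination ((29/57760) + (81/288800) * t +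
      (ss r : ℝ) * (9/6080 - 9/30400 * t)) * ht2

theorem two : ∃ x : EuclideanSpace ℂ (ZMod 2), IsLegendre x ∧ IsFiducial x := by
  set t := Real.sqrt 3 with ht
  have ht2 : t ^ 2 = 3 := Real.sq_sqrt (by norm_num)
  have ht0 : 0 ≤ t := Real.sqrt_nonneg 3
  have ht1 : t ≤ 3 := by nlinarith
  set a := Real.sqrt ((3 + t) / 6) with ha
  set b := Real.sqrt ((3 - t) / 12) with hb
  have ha2 : a ^ 2 = (3 + t) / 6 := Real.sq_sqrt (by positivity)
  have hb2 : b ^ 2 = (3 - t) / 12 := Real.sq_sqrt (by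
    apply div_nonneg <;> linarith)
  have ha2' : (a : ℂ) ^ 2 = (3 + (t : ℂ)) / 6 := by exact_mod_cast ha2
  have hb2' : (b : ℂ) ^ 2 = (3 - (t : ℂ)) / 12 := by exact_mod_cast hb2
  have ht2' : (t : ℂ) ^ 2 = 3 := by exact_mod_cast ht2
  set f : ZMod 2 → ℂ := fun k => if k = 0 then (a : ℂ) else (b : ℂ) * (1 + Complex.I) with hf
  have hsum : ∀ g : ZMod 2 → ℂ, ∑ k, g k = g 0 + g 1 := fun g => Fin.sum_univ_two g
  have f0 : f 0 = (a : ℂ) := by rw [hf]; simp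
  have f1 : f 1 = (b : ℂ) * (1 + Complex.I) := by rw [hf]; simp
  have c0 : conj (f 0) = (a : ℂ) := by rw [f0, Complex.conj_ofReal]
  have c1 : conj (f 1) = (b : ℂ) * (1 - Complex.I) := by
    rw [f1, map_mul (starRingEnd ℂ), Complex.conj_ofReal, map_add, map_one, Complex.conj_I]
    ring
  refine ⟨WithLp.toLp 2 f, ?_, ?_⟩
  · intro s k hs
    have hs1 : s = 1 := by
      revert s
      decide
    rw [hs1, one_pow, one_mul]
  · apply isFiducial_of_G
    · have h2 : ((‖(WithLp.toLp 2 f : EuclideanSpace ℂ (ZMod 2))‖ ^ 2 : ℝ) : ℂ) = 1 := by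
        rw [norm_sq_eq]
        unfold ov
        rw [hsum]
        simp only [zero_mul, AddChar.map_zero_eq_one, mul_one, add_zero]
        rw [c0, c1, f0, f1]
        linear_combination ha2' + 2 * hb2' - (b : ℂ) ^ 2 * Complex.I_sq
      have h3 : ‖(WithLp.toLp 2 f : EuclideanSpace ℂ (ZMod 2))‖ ^ 2 = 1 ^ 2 := by
        rw [one_pow]
        exact_mod_cast h2
      exact (pow_left_inj₀ (norm_nonneg _) zero_le_one two_ne_zero).1 h3
    · intro r m
      change G f r m = _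
      have e11 : (1 : ZMod 2) + 1 = 0 := by decide
      have e10 : (1 : ZMod 2) ≠ 0 := by decide
      have cases : ∀ r : ZMod 2, r = 0 ∨ r = 1 := by decide
      unfold G
      rw [hsum]
      rcases cases r with rfl | rfl <;> rcases cases m with rfl | rfl
      · simp only [add_zero, if_true]
        rw [c0, c1, f0, f1]
        have e : (a : ℂ) * a * a * a + b * (1 - Complex.I) * (b * (1 + Complex.I)) *
            (b * (1 + Complex.I)) * (b * (1 - Complex.I)) =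
            ((a : ℂ) ^ 2) ^ 2 + 4 * ((b : ℂ) ^ 2) ^ 2 := by
          linear_combination (-(b : ℂ) ^ 4 * (3 - Complex.I ^ 2)) * Complex.I_sq
        rw [e, ha2', hb2']
        push_cast
        linear_combination (1 / 18) * ht2'
      · simp only [add_zero, zero_add, e11, if_true, if_neg e10]
        rw [c0, c1, f0, f1]
        have e : (a : ℂ) * a * (b * (1 + Complex.I)) * (b * (1 - Complex.I)) +
            b * (1 - Complex.I) * (b * (1 + Complex.I)) * a * a =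
            4 * (a : ℂ) ^ 2 * (b : ℂ) ^ 2 := by
          linear_combination (-2 * (a : ℂ) ^ 2 * (b : ℂ) ^ 2) * Complex.I_sq
        rw [e, ha2', hb2']
        push_cast
        linear_combination (-1 / 18) * ht2'
      · simp only [add_zero, zero_add, e11, if_true, if_neg e10]
        rw [c0, c1, f0, f1]
        have e : (a : ℂ) * (b * (1 + Complex.I)) * a * (b * (1 - Complex.I)) +
            b * (1 - Complex.I) * a * (b * (1 + Complex.I)) * a =
            4 * (a : ℂ) ^ 2 * (b : ℂ) ^ 2 := by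
          linear_combination (-2 * (a : ℂ) ^ 2 * (b : ℂ) ^ 2) * Complex.I_sq
        rw [e, ha2', hb2']
        push_cast
        linear_combination (-1 / 18) * ht2'
      · simp only [add_zero, zero_add, e11, if_neg e10]
        rw [c0, c1, f0, f1]
        push_cast
        linear_combination (2 * (a : ℂ) ^ 2 * (b : ℂ) ^ 2) * Complex.I_sq

end Pool.Agent.N392.Leg
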