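import Mathlib
import Pool.Agent.N392.Leg.Exist
import Pool.Agent.N392.Leg.Eleven

/-!
# Classification of the prime dimensions with a Legendre type fiducial vector
-/

set_option autoImplicit false

open Finset ComplexConjugate

namespace Pool.Agent.N392.Leg

theorem main (p : ℕ) [hp : Fact p.Prime] :
    (∃ x : EuclideanSpace ℂ (ZMod p), IsLegendre x ∧ IsFiducial x) ↔
      p = 2 ∨ p = 3 ∨ p = 7 ∨ p = 19 := by
  constructor
  · rintro ⟨x, hx, h⟩
    by_cases h2 : p = 2
    · exact Or.inl h2
    by_cases h3 : p = 3
    · exact Or.inr (Or.inl h3)
    have hodd : p % 2 = 1 := (Nat.Prime.eq_two_or_odd hp.out).resolve_left h2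
    by_cases h4 : p % 4 = 3
    · by_cases h11 : p = 11
      · subst h11
        have : hp = fact_eleven := Subsingleton.elim _ _
        subst this
        exact (eleven hx h).elim
      by_cases h7 : p = 7
      · exact Or.inr (Or.inr (Or.inl h7))
      have h15 : 15 ≤ p := by
        by_contra hlt
        push Not at hlt
        interval_cases p <;> omega
      obtain ⟨u, v, z, hx1⟩ := exists_lv h4 hx
      have hx2 : x.ofLp = lv u v z := funext hx1
      have hv : v ≠ 0 := by
        intro hv
        apply h3
        apply even_case h2 h
        intro k
        rw [hx1, hx1]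
        unfold lv
        rw [hv]
        simp
      have hG1 : ∀ r : ZMod p, r ≠ 0 → G (lv u v z) 1 r = 0 := by
        intro r hr
        rw [← hx2, h.G_eq, if_neg one_ne_zero, if_neg hr]
        simp
      have hd := large_case h4 h15 hv hG1
      have hle := Nat.le_of_dvd (by norm_num) hd
      have hmem : p ∈ Nat.divisors 114 := Nat.mem_divisors.2 ⟨hd, by norm_num⟩
      have hdiv : Nat.divisors 114 = {1, 2, 3, 6, 19, 38, 57, 114} := by decide +kernel
      rw [hdiv] at hmem
      simp only [Finset.mem_insert, Finset.mem_singleton] at hmem
      have hpp := hp.out
      rcases hmem with h | h | h | h | h | h | h | h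
      · omega
      · omega
      · omega
      · omega
      · exact Or.inr (Or.inr (Or.inr h))
      · omega
      · rw [h] at hpp; norm_num at hpp
      · omega
    · have h1 : IsSquare (-1 : ZMod p) := by
        rw [FiniteField.isSquare_neg_one_iff, ZMod.card]
        exact h4
      obtain ⟨s, hs⟩ := h1
      have hs0 : s ≠ 0 := by
        rintro rfl
        rw [mul_zero] at hs
        exact neg_ne_zero.2 one_ne_zero hs
      exfalso
      apply h3
      apply even_case h2 h
      intro k
      have h5 := hx s k hs0
      rw [sq, ← hs, neg_one_mul] at h5
      exact h5
  · rintro (h | h | h | h)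
    · subst h
      have : hp = Nat.fact_prime_two := Subsingleton.elim _ _
      subst this
      exact two
    · subst h
      have : hp = fact_three := Subsingleton.elim _ _
      subst this
      exact three
    · subst h
      have : hp = fact_seven := Subsingleton.elim _ _
      subst this
      exact seven
    · subst h
      have : hp = fact_nineteen := Subsingleton.elim _ _
      subst this
      exact nineteen

end Pool.Agent.N392.Leg
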